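import Pool.Agent.Run7.h945.TH.Commute

/-!
# Almost every orbit

At almost every point of the set of fixed points of a countable group of `C¹` maps all derivatives are
the identity.  With Thurston stability, a `C¹` action of a finitely generated group whose subgroups of
finite index have no non trivial homomorphism to `ℝ` has finite image if the set of the points with
finite orbits is not a null set.
-/

set_option autoImplicit false

namespace Pool.Agent.Run7.h945.TH

open Filter Topology Set MeasureTheory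
open scoped Manifold ContDiff NNReal

section chart

variable {E : Type*} [NormedAddCommGroup E] [NormedSpace ℝ E]
  {M : Type*} [TopologicalSpace M] [ChartedSpace E M] [IsManifold 𝓘(ℝ, E) 1 M]
  {Γ : Type*} [Group Γ] [MulAction Γ M]

lemma inChart_contDiffAt' (hC : ∀ g : Γ, ContMDiff 𝓘(ℝ, E) 𝓘(ℝ, E) 1 (fun x : M => g • x))
    {x₀ x : M} (hx : x ∈ (chartAt E x₀).source) {g : Γ} (hg : g • x = x) :
    ContDiffAt ℝ 1 (inChart (E := E) x₀ g) (extChartAt 𝓘(ℝ, E) x₀ x) := by
  have h := ((contMDiffAt_iff_of_mem_source (x := x₀) (y := x₀) hx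
    (by simpa only [hg] using hx)).1 (hC g x)).2
  simp only [modelWithCornersSelf_coe, range_id, contDiffWithinAt_univ] at h
  exact h

/-- Thurston stability at a fixed point in a fixed chart. -/
theorem near_trivial_chart [FiniteDimensional ℝ E]
    (hC : ∀ g : Γ, ContMDiff 𝓘(ℝ, E) 𝓘(ℝ, E) 1 (fun x : M => g • x))
    (K : Subgroup Γ) (hfg : Group.FG K) (hK : ∀ φ : K →* Multiplicative ℝ, ∀ g, φ g = 1)
    {x₀ x : M} (hx : x ∈ (chartAt E x₀).source) (hfix : ∀ k ∈ K, k • x = x)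
    (hd : ∀ k ∈ K, fderiv ℝ (inChart (E := E) x₀ k) (extChartAt 𝓘(ℝ, E) x₀ x) =
      ContinuousLinearMap.id ℝ E) :
    ∀ᶠ y in 𝓝 x, ∀ k ∈ K, k • y = y := by
  have hxs : x ∈ (extChartAt 𝓘(ℝ, E) x₀).source := by rwa [extChartAt_source]
  have hleft : (extChartAt 𝓘(ℝ, E) x₀).symm (extChartAt 𝓘(ℝ, E) x₀ x) = x :=
    (extChartAt 𝓘(ℝ, E) x₀).left_inv hxs
  have hts : Tendsto (extChartAt 𝓘(ℝ, E) x₀).symm (𝓝 (extChartAt 𝓘(ℝ, E) x₀ x)) (𝓝 x) := by
    have := (continuousAt_extChartAt_symm' (I := 𝓘(ℝ, E)) hxs).tendsto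
    rwa [hleft] at this
  have hsn : (extChartAt 𝓘(ℝ, E) x₀).source ∈ 𝓝 x :=
    (isOpen_extChartAt_source x₀).mem_nhds hxs
  have hG : Germs (fun k : K => inChart (E := E) x₀ (k : Γ)) (extChartAt 𝓘(ℝ, E) x₀ x) :=
    { fix := fun k => by
        simp only [inChart, hleft, hfix k k.2]
      one := by
        have h1 : (extChartAt 𝓘(ℝ, E) x₀).target ∈ 𝓝 (extChartAt 𝓘(ℝ, E) x₀ x) :=
          (isOpen_extChartAt_target x₀).mem_nhds ((extChartAt 𝓘(ℝ, E) x₀).map_source hxs)
        filter_upwards [h1] with e he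
        simp only [inChart, Subgroup.coe_one, one_smul]
        exact (extChartAt 𝓘(ℝ, E) x₀).right_inv he
      mul := fun g h => by
        have h1 : Tendsto (fun e : E => (h : Γ) • (extChartAt 𝓘(ℝ, E) x₀).symm e)
            (𝓝 (extChartAt 𝓘(ℝ, E) x₀ x)) (𝓝 x) := by
          have := ((hC (h : Γ)).continuous.tendsto x).comp hts
          rwa [hfix h h.2] at this
        filter_upwards [h1.eventually hsn] with e he
        simp only [inChart, Subgroup.coe_mul]
        rw [(extChartAt 𝓘(ℝ, E) x₀).left_inv he, mul_smul]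
      diff := fun k => by
        have := (inChart_contDiffAt' hC hx (hfix k k.2)).hasStrictFDerivAt one_ne_zero
        have h2 := hd k k.2
        rwa [h2] at this }
  have h1 : ∀ k : K, ∀ᶠ y in 𝓝 x, (k : Γ) • y = y := by
    intro k
    have h2 := hG.trivial hfg hK k
    have h3 : Tendsto (extChartAt 𝓘(ℝ, E) x₀) (𝓝 x) (𝓝 (extChartAt 𝓘(ℝ, E) x₀ x)) :=
      (continuousAt_extChartAt' (I := 𝓘(ℝ, E)) hxs).tendsto
    have h4 : ∀ᶠ y in 𝓝 x, (k : Γ) • y ∈ (extChartAt 𝓘(ℝ, E) x₀).source := by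
      have := (hC (k : Γ)).continuous.tendsto x
      simp only [hfix k k.2] at this
      exact this.eventually hsn
    filter_upwards [h3.eventually h2, h4, hsn] with y h5 h6 h7
    simp only [inChart] at h5
    rw [(extChartAt 𝓘(ℝ, E) x₀).left_inv h7] at h5
    exact (extChartAt 𝓘(ℝ, E) x₀).injOn h6 h7 h5
  obtain ⟨S, hS⟩ : ∃ S : Finset K, Subgroup.closure (S : Set K) = ⊤ :=
    Group.fg_iff'.1 hfg |>.imp (fun n h => h) |> fun ⟨n, S, _, h⟩ => ⟨S, h⟩
  have h8 : ∀ᶠ y in 𝓝 x, ∀ s ∈ S, (s : Γ) • y = y :=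
    (Finset.eventually_all S).2 fun s _ => h1 s
  filter_upwards [h8] with y hy k hk
  have h9 : (⟨k, hk⟩ : K) ∈ Subgroup.closure (S : Set K) := by rw [hS]; trivial
  have h10 : Subgroup.closure (S : Set K) ≤ MulAction.stabilizer K y := by
    rw [Subgroup.closure_le]
    intro s hs
    exact hy s hs
  exact h10 h9

end chart

/-- The set `S` is a null set: its images in the charts have Lebesgue measure zero. -/
def NullSet (m : ℕ) {M : Type} [TopologicalSpace M] [ChartedSpace (EuclideanSpace ℝ (Fin m)) M]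
    (S : Set M) : Prop :=
  ∀ x : M, volume (chartAt (EuclideanSpace ℝ (Fin m)) x ''
    (S ∩ (chartAt (EuclideanSpace ℝ (Fin m)) x).source)) = 0

lemma NullSet.mono {m : ℕ} {M : Type} [TopologicalSpace M]
    [ChartedSpace (EuclideanSpace ℝ (Fin m)) M] {S T : Set M} (h : NullSet m T) (hST : S ⊆ T) :
    NullSet m S := fun x => measure_mono_null (image_mono (inter_subset_inter_left _ hST)) (h x)

lemma countable_of_fg (Γ : Type*) [Group Γ] [Group.FG Γ] : Countable Γ := by
  obtain ⟨S, hS⟩ : ∃ S : Finset Γ, Subgroup.closure (S : Set Γ) = ⊤ :=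
    Group.fg_iff'.1 inferInstance |>.imp (fun n h => h) |> fun ⟨n, S, _, h⟩ => ⟨S, h⟩
  rw [FreeGroup.closure_eq_range] at hS
  have h1 : Function.Surjective (FreeGroup.lift (fun x : ↥(S : Set Γ) => (x : Γ))) :=
    MonoidHom.range_eq_top.1 hS
  exact h1.countable

/-- Almost every fixed point is in the interior of the set of fixed points. -/
theorem interior_of_not_null {m : ℕ} {M : Type} [TopologicalSpace M] [T2Space M]
    [ChartedSpace (EuclideanSpace ℝ (Fin m)) M] [IsManifold (𝓡 m) 1 M]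
    {Γ : Type} [Group Γ] [Group.FG Γ] [MulAction Γ M]
    (hC : ∀ g : Γ, ContMDiff (𝓡 m) (𝓡 m) 1 (fun x : M => g • x))
    (K : Subgroup Γ) (hfg : Group.FG K) (hK : ∀ φ : K →* Multiplicative ℝ, ∀ g, φ g = 1)
    {C : Set M} (hCc : IsClosed C)
    (h : ¬ NullSet m (C ∩ {x : M | ∀ k ∈ K, k • x = x})) :
    ∃ x ∈ C, x ∈ interior {x : M | ∀ k ∈ K, k • x = x} := by
  unfold NullSet at h
  push Not at h
  obtain ⟨x₀, h⟩ := h
  set φ := chartAt (EuclideanSpace ℝ (Fin m)) x₀ with hφ
  set P : Set M := C ∩ {x : M | ∀ k ∈ K, k • x = x} with hP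
  have hPc : IsClosed P := hCc.inter (isClosed_fixed (fun g => (hC g).continuous) K)
  set s : Set (EuclideanSpace ℝ (Fin m)) := φ '' (P ∩ φ.source) with hs
  have hsm : MeasurableSet s := by
    have h1 : s = φ.target \ (φ.target ∩ φ.symm ⁻¹' Pᶜ) := by
      ext e
      constructor
      · rintro ⟨x, ⟨hx1, hx2⟩, rfl⟩
        refine ⟨φ.map_source hx2, fun h2 => h2.2 ?_⟩
        rw [φ.left_inv hx2]
        exact hx1
      · rintro ⟨h1, h2⟩
        have h3 : φ.symm e ∈ P := by
          by_contra h4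
          exact h2 ⟨h1, h4⟩
        exact ⟨φ.symm e, ⟨h3, φ.map_target h1⟩, φ.right_inv h1⟩
    rw [h1]
    exact φ.open_target.measurableSet.diff
      (φ.isOpen_inter_preimage_symm hPc.isOpen_compl).measurableSet
  have hsx : ∀ e ∈ s, ∃ x ∈ P, x ∈ φ.source ∧ extChartAt (𝓡 m) x₀ x = e ∧
      (extChartAt (𝓡 m) x₀).symm e = x := by
    rintro e ⟨x, ⟨hx1, hx2⟩, rfl⟩
    refine ⟨x, hx1, hx2, ?_, ?_⟩
    · simp [hφ]
    · simp only [extChartAt_coe_symm, modelWithCornersSelf_coe_symm, Function.comp_apply, id]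
      exact φ.left_inv hx2
  have hder : ∀ k : K, ∀ᵐ e ∂(volume.restrict s),
      fderiv ℝ (inChart (E := EuclideanSpace ℝ (Fin m)) x₀ (k : Γ)) e =
        ContinuousLinearMap.id ℝ _ := by
    intro k
    have h1 : ApproximatesLinearOn (inChart (E := EuclideanSpace ℝ (Fin m)) x₀ (k : Γ))
        (ContinuousLinearMap.id ℝ (EuclideanSpace ℝ (Fin m))) s 0 := by
      intro a ha b hb
      obtain ⟨x, hxP, hxs, rfl, hx⟩ := hsx a ha
      obtain ⟨y, hyP, hys, rfl, hy⟩ := hsx b hb
      simp only [inChart]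
      rw [hx, hy, hxP.2 k k.2, hyP.2 k k.2]
      simp
    have h2 := ApproximatesLinearOn.norm_fderiv_sub_le (μ := volume) h1 hsm
      (fun e => fderiv ℝ (inChart (E := EuclideanSpace ℝ (Fin m)) x₀ (k : Γ)) e) (by
        intro e he
        obtain ⟨x, hxP, hxs, rfl, hx⟩ := hsx e he
        exact ((inChart_contDiffAt' hC hxs (hxP.2 k k.2)).differentiableAt
          one_ne_zero).hasFDerivAt.hasFDerivWithinAt)
    filter_upwards [h2] with e he
    have h3 : ‖fderiv ℝ (inChart (E := EuclideanSpace ℝ (Fin m)) x₀ (k : Γ)) e -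
        ContinuousLinearMap.id ℝ _‖₊ = 0 := le_antisymm he zero_le
    exact sub_eq_zero.1 (nnnorm_eq_zero.1 h3)
  have hcount : Countable Γ := countable_of_fg Γ
  have hall : ∀ᵐ e ∂(volume.restrict s), ∀ k : K,
      fderiv ℝ (inChart (E := EuclideanSpace ℝ (Fin m)) x₀ (k : Γ)) e =
        ContinuousLinearMap.id ℝ _ := ae_all_iff.2 hder
  have hne : volume.restrict s ≠ 0 := by
    rw [Ne, Measure.restrict_eq_zero]
    exact h
  have : (ae (volume.restrict s)).NeBot := ae_neBot.2 hne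
  obtain ⟨e, he1, he2⟩ := (hall.and (ae_restrict_mem hsm)).exists
  obtain ⟨x, hxP, hxs, rfl, hx⟩ := hsx e he2
  refine ⟨x, hxP.1, ?_⟩
  rw [mem_interior_iff_mem_nhds]
  exact near_trivial_chart hC K hfg hK hxs hxP.2 fun k hk => he1 ⟨k, hk⟩

/-- If the set of the points with finite orbits is not a null set, the image is finite. -/
theorem finite_of_not_null {m : ℕ} {M : Type} [TopologicalSpace M] [T2Space M] [PreconnectedSpace M]
    [ChartedSpace (EuclideanSpace ℝ (Fin m)) M] [IsManifold (𝓡 m) 1 M]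
    {Γ : Type} [Group Γ] [Group.FG Γ] [MulAction Γ M] (hR : NoReal Γ)
    (hC : ∀ g : Γ, ContMDiff (𝓡 m) (𝓡 m) 1 (fun x : M => g • x))
    (h : ¬ NullSet m {x : M | (MulAction.orbit Γ x).Finite}) :
    Finite (MulAction.toPermHom Γ M).range := by
  have h1 : ∃ n, ¬ NullSet m (univ ∩ {x : M | ∀ k ∈ kn Γ n, k • x = x}) := by
    by_contra hcon
    push Not at hcon
    refine h fun x => ?_
    have h2 : chartAt (EuclideanSpace ℝ (Fin m)) x '' ({x : M | (MulAction.orbit Γ x).Finite} ∩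
        (chartAt (EuclideanSpace ℝ (Fin m)) x).source) ⊆
        ⋃ n, chartAt (EuclideanSpace ℝ (Fin m)) x ''
          ((univ ∩ {x : M | ∀ k ∈ kn Γ n, k • x = x}) ∩
            (chartAt (EuclideanSpace ℝ (Fin m)) x).source) := by
      rintro _ ⟨y, ⟨hy1, hy2⟩, rfl⟩
      obtain ⟨n, hn⟩ := fixed_of_finite_orbit hy1
      exact mem_iUnion.2 ⟨n, y, ⟨⟨trivial, hn⟩, hy2⟩, rfl⟩
    exact measure_mono_null h2 (measure_iUnion_null fun n => hcon n x)
  obtain ⟨n, hn⟩ := h1
  obtain ⟨x, -, hx⟩ := interior_of_not_null hC (kn Γ n) inferInstance (hR _ inferInstance)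
    isClosed_univ hn
  exact finite_image (kn Γ n) (spread hC (kn Γ n) inferInstance (hR _ inferInstance) ⟨x, hx⟩)

end Pool.Agent.Run7.h945.TH
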