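import Pool.Agent.Run7.h945.TH.Indep

/-!
# Equivariant maps: the rank theorem and towers
-/

set_option autoImplicit false

open Set Filter Topology Metric Function MeasureTheory
open scoped Manifold ContDiff

noncomputable section

namespace Pool.Agent.Run7.h945.TH

open Pool.Agent.Y522

/-- The rank of a linear map. -/
def linRank {V W : Type} [AddCommGroup V] [AddCommGroup W] [Module ℝ V] [Module ℝ W]
    (L : V →ₗ[ℝ] W) : ℕ := Module.finrank ℝ (LinearMap.range L)

/-- The derivative of a map. -/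
def dF (m b : ℕ) {M B : Type} [TopologicalSpace M] [ChartedSpace (EuclideanSpace ℝ (Fin m)) M]
    [TopologicalSpace B] [ChartedSpace (EuclideanSpace ℝ (Fin b)) B] (F : M → B) (x : M) :
    EuclideanSpace ℝ (Fin m) →L[ℝ] EuclideanSpace ℝ (Fin b) := mfderiv (𝓡 m) (𝓡 b) F x

/-- The rank of the derivative. -/
def rank (m b : ℕ) {M B : Type} [TopologicalSpace M] [ChartedSpace (EuclideanSpace ℝ (Fin m)) M]
    [TopologicalSpace B] [ChartedSpace (EuclideanSpace ℝ (Fin b)) B] (F : M → B) (x : M) : ℕ :=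
  linRank (dF m b F x).toLinearMap

/-- Functions on the target whose pullbacks are independent. -/
theorem exists_functions {m b k : ℕ} {M B : Type} [TopologicalSpace M] [ChartedSpace (E m) M]
    [IsManifold (𝓡 m) ∞ M] [TopologicalSpace B] [T2Space B] [ChartedSpace (E b) B]
    [IsManifold (𝓡 b) ∞ B] {F : M → B} (hF : ContMDiff (𝓡 m) (𝓡 b) ∞ F) (x : M)
    (hk : k ≤ rank m b F x) :
    ∃ h : Fin k → B → ℝ, (∀ i, ContMDiff (𝓡 b) 𝓘(ℝ, ℝ) ∞ (h i)) ∧
      LinearIndependent ℝ (fun i => dd m (fun y => h i (F y)) x) := by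
  set c : B := F x with hc
  set φ := chartAt (E b) c with hφ
  have hcs : c ∈ φ.source := mem_chart_source _ c
  let L : E m →L[ℝ] E b := mfderiv (𝓡 m) (𝓡 b) F x
  let P : E b →L[ℝ] E b := mfderiv (𝓡 b) (𝓡 b) φ c
  have hPinj : Injective P := by
    exact ((Pool.Agent.Y641.SH.LD_chart (n := b) c).mfderivToContinuousLinearEquiv
      (n := ∞) (by simp)).injective
  have hrank : Module.finrank ℝ (LinearMap.range ((P.comp L : E m →L[ℝ] E b) : E m →ₗ[ℝ] E b)) =
      rank m b F x := by
    have h1 : LinearMap.range ((P.comp L : E m →L[ℝ] E b) : E m →ₗ[ℝ] E b) =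
        (LinearMap.range (L : E m →ₗ[ℝ] E b)).map (P : E b →ₗ[ℝ] E b) := by
      rw [← LinearMap.range_comp]
      rfl
    rw [h1]
    exact (Submodule.equivMapOfInjective (P : E b →ₗ[ℝ] E b) hPinj
      (LinearMap.range (L : E m →ₗ[ℝ] E b))).finrank_eq.symm
  obtain ⟨l, hl⟩ := exists_dual (P.comp L) (hk.trans hrank.ge)
  obtain ⟨χ⟩ : Nonempty (SmoothBumpFunction (𝓡 b) c) := inferInstance
  refine ⟨fun i y => χ y • l i (φ y), fun i => ?_, ?_⟩
  · refine χ.contMDiff_smul ?_
    have h1 : ContMDiffOn (𝓡 b) (𝓡 b) ∞ φ φ.source := contMDiffOn_chart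
    exact ((l i).contDiff.contMDiff).comp_contMDiffOn h1
  · have h1 : ∀ i, dd m (fun y => χ (F y) • l i (φ (F y))) x = (l i).comp (P.comp L) := by
      intro i
      have h2 : (fun y => χ (F y) • l i (φ (F y))) =ᶠ[𝓝 x] (l i ∘ φ) ∘ F := by
        have h3 := χ.eventuallyEq_one
        filter_upwards [hF.continuous.continuousAt.eventually h3] with y hy
        simp only [comp_apply]
        rw [hy]
        simp
      have hφd : MDifferentiableAt (𝓡 b) (𝓡 b) φ c :=
        ((contMDiffOn_chart (n := ∞) c hcs).contMDiffAt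
          (φ.open_source.mem_nhds hcs)).mdifferentiableAt (by simp)
      have hld : MDifferentiableAt (𝓡 b) 𝓘(ℝ, ℝ) (l i) (φ c) :=
        ((l i).contDiff.contMDiff (n := ∞)).mdifferentiableAt (by simp)
      have h4 : mfderiv (𝓡 b) 𝓘(ℝ, ℝ) (l i ∘ φ) c = (l i).comp P := by
        have h5 := mfderiv_comp c hld hφd
        rw [mfderiv_eq_fderiv, ContinuousLinearMap.fderiv] at h5
        exact h5
      have h6 := mfderiv_comp x (hld.comp c hφd) (hF.mdifferentiableAt (by simp))
      unfold dd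
      rw [h2.mfderiv_eq, h6]
      change ContinuousLinearMap.comp (mfderiv (𝓡 b) 𝓘(ℝ, ℝ) (l i ∘ φ) c) L = _
      rw [h4]
      rfl
    have h7 : (fun i => dd m (fun y => χ (F y) • l i (φ (F y))) x) =
        fun i => (l i).comp (P.comp L) := funext h1
    rw [h7]
    exact hl

section groups

variable {Γ : Type} [Group Γ]

instance map_finiteIndex (Δ : Subgroup Γ) [hΔ : Δ.FiniteIndex] (K : Subgroup Δ)
    [hK : K.FiniteIndex] : (K.map Δ.subtype).FiniteIndex := by
  refine ⟨?_⟩
  rw [Subgroup.index_map]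
  simp only [Subgroup.ker_subtype, sup_bot_eq, Subgroup.range_subtype]
  exact mul_ne_zero hK.index_ne_zero hΔ.index_ne_zero

theorem NoReal.subgroup (h : NoReal Γ) (Δ : Subgroup Γ) [Δ.FiniteIndex] : NoReal Δ := by
  intro K hK φ g
  let e := K.equivMapOfInjective Δ.subtype Δ.subtype_injective
  have h1 := h (K.map Δ.subtype) inferInstance (φ.comp e.symm.toMonoidHom) (e g)
  simpa using h1

end groups

/-- All smooth actions of subgroups of finite index of `Γ` on closed manifolds of dimension smaller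
than `r` have finite image. -/
def FiniteActionsAll (Γ : Type) [Group Γ] (r : ℕ) : Prop :=
  ∀ Δ : Subgroup Γ, Δ.FiniteIndex → FiniteActions Δ r

/-- First integrals: the component of a point at which they are independent. -/
theorem comp_of_functions {Γ : Type} [Group Γ] [Group.FG Γ] (hR : NoReal Γ) {r : ℕ}
    (hA : FiniteActionsAll Γ r) {k m : ℕ} {M : Type} [TopologicalSpace M] [CompactSpace M]
    [T2Space M] [ChartedSpace (E m) M] [IsManifold (𝓡 m) ∞ M]
    [MulAction Γ M] (hC : ∀ g : Γ, ContMDiff (𝓡 m) (𝓡 m) ∞ (fun x : M => g • x))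
    (Δ : Subgroup Γ) (hΔ : Δ.FiniteIndex)
    (f : Fin k → M → ℝ) (hf : ∀ i, ContMDiff (𝓡 m) 𝓘(ℝ, ℝ) ∞ (f i))
    (hinv : ∀ i, ∀ g ∈ Δ, ∀ x, f i (g • x) = f i x) (x : M)
    (hx : LinearIndependent ℝ (fun i => dd m (f i) x)) (hm : m < r + k) :
    ∃ K : Subgroup Γ, K.FiniteIndex ∧ ∀ y ∈ connectedComponent x, ∀ k ∈ K, k • y = y := by
  have : LocallyConnectedSpace M := ChartedSpace.locallyConnectedSpace (E m) M
  have key := orbit_finite (hR.subgroup Δ) (hA Δ hΔ) k m M (fun g => hC (g : Γ)) f hf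
    (fun i g y => hinv i g g.2 y) _ (isOpen_independent hf) (fun y hy => hy) hm
  obtain ⟨K, hK, w, hw, hwi⟩ := exists_interior (Γ := Δ) (fun g => (hC (g : Γ)).continuous)
    (W := {x : M | LinearIndependent ℝ (fun i => dd m (f i) x)} ∩ connectedComponent x)
    ((isOpen_independent hf).inter isOpen_connectedComponent) ⟨x, hx, mem_connectedComponent⟩
    (fun y hy => key y hy.1)
  have hset : {y : M | ∀ k ∈ K.map Δ.subtype, k • y = y} = {y : M | ∀ k ∈ K, k • y = y} := by
    ext y
    constructor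
    · intro h k hk
      exact h (k : Γ) ⟨k, hk, rfl⟩
    · rintro h _ ⟨k, hk, rfl⟩
      exact h k hk
  have hC1 : ∀ g : Γ, ContMDiff 𝓘(ℝ, E m) 𝓘(ℝ, E m) 1 (fun x : M => g • x) :=
    fun g => (hC g).of_le (by exact_mod_cast le_top)
  refine ⟨K.map Δ.subtype, inferInstance, fun y hy => ?_⟩
  refine spread_comp hC1 (K.map Δ.subtype) inferInstance (hR _ inferInstance) (x := w) ?_ ?_
  · rw [hset]
    exact hwi
  · rw [← connectedComponent_eq hw.2]
    exact hy

/-- From the components to the whole compact manifold. -/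
theorem finite_of_comps {Γ : Type} [Group Γ] {M : Type} [TopologicalSpace M] [CompactSpace M]
    [LocallyConnectedSpace M] [MulAction Γ M]
    (h : ∀ x : M, ∃ K : Subgroup Γ, K.FiniteIndex ∧
      ∀ y ∈ connectedComponent x, ∀ k ∈ K, k • y = y) :
    Finite (MulAction.toPermHom Γ M).range := by
  choose K hK hKf using h
  obtain ⟨t, ht⟩ := isCompact_univ.elim_finite_subcover (fun x : M => connectedComponent x)
    (fun x => isOpen_connectedComponent) (fun x _ => mem_iUnion.2 ⟨x, mem_connectedComponent⟩)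
  have hfin : (⨅ x ∈ t, K x).FiniteIndex := Subgroup.finiteIndex_iInf' _ fun x _ => hK x
  refine finite_image (⨅ x ∈ t, K x) fun k hk y => ?_
  obtain ⟨x, hxt, hyx⟩ := mem_iUnion₂.1 (ht (mem_univ y))
  exact hKf x y hyx k ((Subgroup.mem_iInf.1 ((Subgroup.mem_iInf.1 hk) x)) hxt)

/-- **First integrals.** -/
theorem finite_of_functions {Γ : Type} [Group Γ] [Group.FG Γ] (hR : NoReal Γ) {r : ℕ}
    (hA : FiniteActionsAll Γ r) {k m : ℕ} {M : Type} [TopologicalSpace M] [CompactSpace M]
    [T2Space M] [ChartedSpace (E m) M] [IsManifold (𝓡 m) ∞ M]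
    [MulAction Γ M] (hC : ∀ g : Γ, ContMDiff (𝓡 m) (𝓡 m) ∞ (fun x : M => g • x))
    (Δ : Subgroup Γ) (hΔ : Δ.FiniteIndex)
    (f : Fin k → M → ℝ) (hf : ∀ i, ContMDiff (𝓡 m) 𝓘(ℝ, ℝ) ∞ (f i))
    (hinv : ∀ i, ∀ g ∈ Δ, ∀ x, f i (g • x) = f i x)
    (hx : ∀ y : M, ∃ x ∈ connectedComponent y, LinearIndependent ℝ (fun i => dd m (f i) x))
    (hm : m < r + k) :
    Finite (MulAction.toPermHom Γ M).range := by
  have : LocallyConnectedSpace M := ChartedSpace.locallyConnectedSpace (E m) M
  refine finite_of_comps fun y => ?_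
  obtain ⟨x, hxy, hx⟩ := hx y
  obtain ⟨K, hK, h⟩ := comp_of_functions hR hA hC Δ hΔ f hf hinv x hx hm
  rw [connectedComponent_eq hxy]
  exact ⟨K, hK, h⟩

/-- **Equivariant maps.** -/
theorem finite_of_map {Γ : Type} [Group Γ] [Group.FG Γ] (hR : NoReal Γ) {r : ℕ}
    (hA : FiniteActionsAll Γ r) {m b : ℕ} {M : Type} [TopologicalSpace M] [CompactSpace M]
    [T2Space M] [ChartedSpace (E m) M] [IsManifold (𝓡 m) ∞ M]
    [MulAction Γ M] (hC : ∀ g : Γ, ContMDiff (𝓡 m) (𝓡 m) ∞ (fun x : M => g • x))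
    {B : Type} [TopologicalSpace B] [T2Space B] [ChartedSpace (E b) B] [IsManifold (𝓡 b) ∞ B]
    [MulAction Γ B] (hB : Finite (MulAction.toPermHom Γ B).range)
    (F : M → B) (hF : ContMDiff (𝓡 m) (𝓡 b) ∞ F) (heq : ∀ (g : Γ) x, F (g • x) = g • F x)
    (hx : ∀ y : M, ∃ x ∈ connectedComponent y, m < r + rank m b F x) :
    Finite (MulAction.toPermHom Γ M).range := by
  have : LocallyConnectedSpace M := ChartedSpace.locallyConnectedSpace (E m) M
  refine finite_of_comps fun y => ?_
  obtain ⟨x, hxy, hm⟩ := hx y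
  obtain ⟨h, hh, hind⟩ := exists_functions hF x le_rfl
  have hinv : ∀ i, ∀ g ∈ (MulAction.toPermHom Γ B).ker, ∀ y, h i (F (g • y)) = h i (F y) := by
    intro i g hg y
    have h1 : g • F y = F y := by
      have h2 : MulAction.toPermHom Γ B g = 1 := hg
      exact congrArg (fun σ : Equiv.Perm B => σ (F y)) h2
    simp only [heq, h1]
  obtain ⟨K, hK, hKf⟩ := comp_of_functions hR hA hC (MulAction.toPermHom Γ B).ker inferInstance
    (fun i y => h i (F y)) (fun i => (hh i).comp hF) hinv x hind hm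
  rw [connectedComponent_eq hxy]
  exact ⟨K, hK, hKf⟩

/-- A smooth action on a closed manifold. -/
structure ClosedAction (Γ : Type) [Group Γ] where
  /-- the dimension -/
  dim : ℕ
  /-- the manifold -/
  M : Type
  [top : TopologicalSpace M]
  [compact : CompactSpace M]
  [t2 : T2Space M]
  [charted : ChartedSpace (EuclideanSpace ℝ (Fin dim)) M]
  [manifold : IsManifold (𝓡 dim) ∞ M]
  [act : MulAction Γ M]
  smooth : ∀ g : Γ, ContMDiff (𝓡 dim) (𝓡 dim) ∞ (fun x : M => g • x)

attribute [instance] ClosedAction.top ClosedAction.compact ClosedAction.t2 ClosedAction.charted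
  ClosedAction.manifold ClosedAction.act

/-- The image of `Γ` in the group of permutations is finite. -/
def FiniteImage {Γ : Type} [Group Γ] (X : ClosedAction Γ) : Prop :=
  Finite (MulAction.toPermHom Γ X.M).range

/-- Smooth equivariant maps. -/
def SmoothEquivariant {Γ : Type} [Group Γ] (X Y : ClosedAction Γ) (F : X.M → Y.M) : Prop :=
  ContMDiff (𝓡 X.dim) (𝓡 Y.dim) ∞ F ∧ ∀ (g : Γ) x, F (g • x) = g • F x

/-- Every connected component of `X` contains a point `x` with `dim X < r + rank_x F`. -/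
def LargeRank {Γ : Type} [Group Γ] (r : ℕ) (X Y : ClosedAction Γ) (F : X.M → Y.M) : Prop :=
  ∀ y : X.M, ∃ x ∈ connectedComponent y, X.dim < r + rank X.dim Y.dim F x

/-- The smallest class of closed manifolds with smooth actions of `Γ` which contains the actions with
finite image and contains `X` whenever it contains `Y` and there is a smooth equivariant map
`F : X → Y` such that every connected component of `X` contains a point `x` with
`dim X < r + rank_x F`. -/
inductive Tower {Γ : Type} [Group Γ] (r : ℕ) : ClosedAction Γ → Prop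
  | base (X : ClosedAction Γ) : FiniteImage X → Tower r X
  | step (X Y : ClosedAction Γ) (F : X.M → Y.M) : SmoothEquivariant X Y F → LargeRank r X Y F →
      Tower r Y → Tower r X

/-- The differentials of the functions are linearly independent at `x`. -/
def Independent (m : ℕ) {k : ℕ} {M : Type} [TopologicalSpace M]
    [ChartedSpace (EuclideanSpace ℝ (Fin m)) M] (f : Fin k → M → ℝ) (x : M) : Prop :=
  LinearIndependent ℝ (fun i => dd m (f i) x)

/-- A subgroup of finite index of `Γ` preserves `k` smooth functions whose differentials are linearly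
independent at some point of every connected component. -/
def FirstIntegrals {Γ : Type} [Group Γ] (X : ClosedAction Γ) (k : ℕ) : Prop :=
  ∃ f : Fin k → X.M → ℝ, (∀ i, ContMDiff (𝓡 X.dim) 𝓘(ℝ, ℝ) ∞ (f i)) ∧
    (∃ Δ : Subgroup Γ, Δ.FiniteIndex ∧ ∀ i, ∀ g ∈ Δ, ∀ x, f i (g • x) = f i x) ∧
    ∀ y : X.M, ∃ x ∈ connectedComponent y, Independent X.dim f x

/-- **Towers.** -/
theorem finite_of_tower {Γ : Type} [Group Γ] [Group.FG Γ] (hR : NoReal Γ) {r : ℕ}
    (hA : FiniteActionsAll Γ r) (X : ClosedAction Γ) (h : Tower r X) : FiniteImage X := by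
  induction h with
  | base X h => exact h
  | step X Y F hF hx _ ih => exact finite_of_map hR hA X.smooth ih F hF.1 hF.2 hx

theorem finite_of_firstIntegrals {Γ : Type} [Group Γ] [Group.FG Γ] (hR : NoReal Γ) {r : ℕ}
    (hA : FiniteActionsAll Γ r) (X : ClosedAction Γ) {k : ℕ} (h : FirstIntegrals X k)
    (hm : X.dim < r + k) : FiniteImage X := by
  obtain ⟨f, hf, ⟨Δ, hΔ, hinv⟩, hx⟩ := h
  exact finite_of_functions hR hA X.smooth Δ hΔ f hf hinv hx hm

theorem FiniteActionsAll.self {Γ : Type} [Group Γ] {r : ℕ} (hA : FiniteActionsAll Γ r) :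
    FiniteActions Γ r := by
  intro d hd N _ _ _ _ _ _ hN
  have h1 : Finite (MulAction.toPermHom (⊤ : Subgroup Γ) N).range :=
    hA ⊤ inferInstance d hd N (fun g => hN (g : Γ))
  refine Finite.of_injective (β := (MulAction.toPermHom (⊤ : Subgroup Γ) N).range)
    (fun σ => ⟨σ, ?_⟩) ?_
  · obtain ⟨g, hg⟩ := σ.2
    exact ⟨⟨g, trivial⟩, hg⟩
  · intro a b hab
    have h : (a : Equiv.Perm N) = b := by simpa using hab
    exact Subtype.ext h

/-- Manifolds of dimension smaller than `r` belong to the class. -/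
theorem tower_of_dim_lt {Γ : Type} [Group Γ] {r : ℕ} (hA : FiniteActionsAll Γ r)
    (X : ClosedAction Γ) (h : X.dim < r) : Tower r X :=
  Tower.base X (hA.self X.dim h X.M X.smooth)

end Pool.Agent.Run7.h945.TH
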