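import Pool.Agent.Run7.h945.TH.Linear

/-!
# Finite orbits modulo a commuting group

`Γ` and `A` act on `M` and the actions commute.  If the orbit of `x` under `Γ` meets finitely many
orbits of `A` and the homomorphisms from subgroups of finite index of `Γ` to subquotients of `A` have
finite image (for instance `A` is solvable), the orbit of `x` under `Γ` is finite.
-/

set_option autoImplicit false

namespace Pool.Agent.Run7.h945.TH

open Filter Topology Set MeasureTheory
open scoped Manifold ContDiff Pointwise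

section algebra

variable (Γ A M : Type*) [Group Γ] [Group A] [MulAction Γ M] [MulAction A M]

/-- For all `x`, all homomorphisms from subgroups of finite index of `Γ` to the quotient `N ⧸ B` of
the normalizer `N` of the stabilizer `B` of `x` in `A` by this stabilizer have finite image. -/
def QuotFinite : Prop :=
  ∀ Δ : Subgroup Γ, Δ.FiniteIndex → ∀ (x : M)
    (θ : Δ →* Subgroup.normalizer (MulAction.stabilizer A x : Set A) ⧸
      (MulAction.stabilizer A x).subgroupOf
        (Subgroup.normalizer (MulAction.stabilizer A x : Set A))), Finite θ.range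

variable {M}

/-- The orbit of `x` under `Γ` is contained in finitely many orbits of `A`. -/
def FiniteMod (x : M) : Prop :=
  ∃ T : Set M, T.Finite ∧ ∀ g : Γ, ∃ s ∈ T, g • x ∈ MulAction.orbit A s

variable {Γ A}

theorem exists_subgroup_of_finiteMod
    (hcomm : ∀ (g : Γ) (a : A) (x : M), g • a • x = a • g • x) {x : M} (hx : FiniteMod Γ A x) :
    ∃ Δ : Subgroup Γ, Δ.FiniteIndex ∧ ∀ g ∈ Δ, ∃ a : A, a • g • x = x := by
  obtain ⟨T, hT, h⟩ := hx
  let Δ : Subgroup Γ :=
    { carrier := {g | ∃ a : A, a • g • x = x}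
      one_mem' := ⟨1, by simp⟩
      mul_mem' := by
        rintro g h ⟨a, ha⟩ ⟨b, hb⟩
        refine ⟨a * b, ?_⟩
        rw [mul_smul, mul_smul, ← hcomm g b, hb, ha]
      inv_mem' := by
        rintro g ⟨a, ha⟩
        refine ⟨a⁻¹, ?_⟩
        rw [inv_smul_eq_iff, inv_smul_eq_iff, hcomm, ha] }
  refine ⟨Δ, ?_, fun g hg => hg⟩
  choose c hcT hc using h
  have hkey : ∀ g k : Γ, c g = c k → g⁻¹ * k ∈ Δ := by
    intro g k hgk
    obtain ⟨a, ha⟩ := hc g
    obtain ⟨b, hb⟩ := hc k
    refine ⟨a * b⁻¹, ?_⟩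
    have ha' : a • c g = g • x := ha
    have hb' : b • c k = k • x := hb
    rw [mul_smul, mul_smul, ← hb', ← hcomm, ← hcomm, inv_smul_smul, ← hgk, ha',
      inv_smul_smul]
  have : Finite T := hT
  have : Finite (Γ ⧸ Δ) := by
    refine Finite.of_injective (β := T) (fun q => ⟨c q.out, hcT _⟩) fun q r hqr => ?_
    have h1 : c q.out = c r.out := congrArg Subtype.val hqr
    have h2 := hkey _ _ h1
    rw [← q.out_eq', ← r.out_eq']
    exact QuotientGroup.eq.2 h2
  exact Subgroup.finiteIndex_of_finite_quotient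

/-- The orbit of `x` under `Γ` is finite. -/
theorem finite_orbit_of_finiteMod
    (hcomm : ∀ (g : Γ) (a : A) (x : M), g • a • x = a • g • x) (hS : QuotFinite Γ A M) {x : M}
    (hx : FiniteMod Γ A x) : (MulAction.orbit Γ x).Finite := by
  obtain ⟨Δ, hΔ, hx⟩ := exists_subgroup_of_finiteMod hcomm hx
  let N : Subgroup A := Subgroup.normalizer (MulAction.stabilizer A x : Set A)
  let B : Subgroup N := (MulAction.stabilizer A x).subgroupOf N
  have hB : ∀ b : N, b ∈ B ↔ (b : A) • x = x := fun b => Iff.rfl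
  have hN : ∀ (g : Γ) (a : A), a • g • x = x → a ∈ N := by
    intro g n hn
    refine Subgroup.mem_normalizer_iff.2 fun b => ?_
    rw [MulAction.mem_stabilizer_iff, MulAction.mem_stabilizer_iff]
    have h1 : n⁻¹ • x = g • x := by rw [inv_smul_eq_iff, hn]
    rw [mul_smul, mul_smul, h1, ← hcomm, ← hcomm]
    constructor
    · intro hb
      rw [hb, hcomm, hn]
    · intro hb
      have h2 : g • n • b • x = g • n • x := by rw [hb, hcomm, hn]
      exact smul_left_cancel n (smul_left_cancel g h2)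
  choose a ha using fun g : Δ => hx g g.2
  have hmem : ∀ g : Δ, a g ∈ N := fun g => hN g (a g) (ha g)
  have hkey : ∀ (g : Γ) (b c : N), (b : A) • g • x = x → (c : A) • g • x = x →
      (QuotientGroup.mk b : N ⧸ B) = QuotientGroup.mk c := by
    intro g b c hb hc
    rw [QuotientGroup.eq, hB]
    change ((b : A)⁻¹ * (c : A)) • x = x
    have h1 : (c : A) • x = g⁻¹ • x := by rw [eq_inv_smul_iff, hcomm, hc]
    have h2 : (b : A) • x = g⁻¹ • x := by rw [eq_inv_smul_iff, hcomm, hb]
    rw [mul_smul, inv_smul_eq_iff, h1, h2]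
  let θ : Δ →* N ⧸ B :=
    { toFun := fun g => QuotientGroup.mk ⟨a g, hmem g⟩
      map_one' := by
        refine hkey 1 _ 1 ?_ ?_
        · exact ha 1
        · simp
      map_mul' := fun g k => by
        rw [← QuotientGroup.mk_mul]
        refine hkey (g * k : Δ) _ _ (ha _) ?_
        change (a g * a k) • ((g : Γ) * (k : Γ)) • x = x
        rw [mul_smul, mul_smul, ← hcomm (g : Γ) (a k), ha, ha] }
  have hf := hS Δ hΔ x θ
  have hker : θ.ker.FiniteIndex := inferInstance
  have hK : (θ.ker.map Δ.subtype).FiniteIndex := by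
    refine ⟨?_⟩
    rw [Subgroup.index_map]
    simp only [Subgroup.ker_subtype, sup_bot_eq, Subgroup.range_subtype]
    exact mul_ne_zero hker.index_ne_zero hΔ.index_ne_zero
  refine finite_orbit_of_fixed (θ.ker.map Δ.subtype) ?_
  rintro _ ⟨g, hg, rfl⟩
  have h1 : (QuotientGroup.mk ⟨a g, hmem g⟩ : N ⧸ B) = QuotientGroup.mk 1 := hg
  rw [QuotientGroup.eq, hB] at h1
  have h2 : (a g)⁻¹ • x = x := by
    have h3 : ((a g)⁻¹ * 1) • x = x := h1
    rwa [mul_one] at h3
  have h3 := ha g
  rw [← hcomm] at h3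
  have h4 : a g • x = x := by rw [inv_smul_eq_iff] at h2; exact h2.symm
  rw [h4] at h3
  exact h3

end algebra

section solvable

/-- The abelianization is finite. -/
theorem finite_abelianization {Δ : Type*} [Group Δ] [Group.FG Δ]
    (h : ∀ φ : Δ →* Multiplicative ℝ, ∀ g, φ g = 1) : Finite (Abelianization Δ) := by
  have hfg : Group.FG (Abelianization Δ) :=
    Group.fg_of_surjective (f := (Abelianization.of : Δ →* Abelianization Δ))
      QuotientGroup.mk_surjective
  obtain ⟨ι, j, _, _, p, hp, e, ⟨f⟩⟩ :=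
    CommGroup.equiv_free_prod_prod_multiplicative_zmod (Abelianization Δ)
  rcases isEmpty_or_nonempty j with hj | ⟨⟨i0⟩⟩
  · have h1 : ∀ i, NeZero (p i ^ e i) := fun i => ⟨pow_ne_zero _ (hp i).ne_zero⟩
    have h2 : Finite ((j → Multiplicative ℤ) ×
      ((i : ι) → Multiplicative (ZMod (p i ^ e i)))) := inferInstance
    exact Finite.of_equiv _ f.symm.toEquiv
  · exfalso
    let c : Multiplicative ℤ →* Multiplicative ℝ :=
      AddMonoidHom.toMultiplicative (Int.castAddHom ℝ)
    let φ : Δ →* Multiplicative ℝ := c.comp ((Pi.evalMonoidHom _ i0).comp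
      ((MonoidHom.fst _ _).comp (f.toMonoidHom.comp Abelianization.of)))
    obtain ⟨g, hg⟩ := QuotientGroup.mk_surjective (f.symm (fun _ => Multiplicative.ofAdd 1, 1))
    have h1 := h φ g
    have h2 : φ g = c (Multiplicative.ofAdd 1) := by
      have h3 : f (Abelianization.of g) = (fun _ => Multiplicative.ofAdd 1, 1) := by
        have h4 : Abelianization.of g = f.symm (fun _ => Multiplicative.ofAdd 1, 1) := hg
        rw [h4, MulEquiv.apply_symm_apply]
      change c ((f (Abelianization.of g)).1 i0) = _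
      rw [h3]
    rw [h2] at h1
    have h6 := congrArg Multiplicative.toAdd h1
    simp [c] at h6

theorem commutator_finiteIndex {Γ : Type*} [Group Γ] [Group.FG Γ] (hR : NoReal Γ)
    (K : Subgroup Γ) (hK : K.FiniteIndex) : ⁅K, K⁆.FiniteIndex := by
  have h1 : Finite (Abelianization K) := finite_abelianization (hR K hK)
  have h2 : Finite (K ⧸ commutator K) := h1
  have h3 : (commutator K).FiniteIndex := Subgroup.finiteIndex_of_finite_quotient
  have h4 : ⁅K, K⁆ = (commutator K).map K.subtype := by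
    rw [commutator, Subgroup.map_commutator, ← MonoidHom.range_eq_map, Subgroup.range_subtype]
  rw [h4]
  refine ⟨?_⟩
  rw [Subgroup.index_map]
  simp only [Subgroup.ker_subtype, sup_bot_eq, Subgroup.range_subtype]
  exact mul_ne_zero h3.index_ne_zero hK.index_ne_zero

/-- Homomorphisms to solvable groups have finite image. -/
theorem finite_of_solvable {Γ : Type*} [Group Γ] [Group.FG Γ] (hR : NoReal Γ)
    (Δ : Subgroup Γ) (hΔ : Δ.FiniteIndex) {H : Type*} [Group H] [Group.IsSolvable H]
    (θ : Δ →* H) : Finite θ.range := by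
  have key : ∀ n, ∃ K : Subgroup Γ, K.FiniteIndex ∧
      ∀ g : Δ, (g : Γ) ∈ K → θ g ∈ derivedSeries H n := by
    intro n
    induction n with
    | zero => exact ⟨⊤, inferInstance, fun g _ => by rw [derivedSeries_zero]; trivial⟩
    | succ n ih =>
      obtain ⟨K, hK, h⟩ := ih
      have hKΔ : (K ⊓ Δ).FiniteIndex := inferInstance
      refine ⟨⁅K ⊓ Δ, K ⊓ Δ⁆, commutator_finiteIndex hR _ hKΔ, fun g hg => ?_⟩
      have h1 : ⁅K ⊓ Δ, K ⊓ Δ⁆ = (⁅(K ⊓ Δ).subgroupOf Δ, (K ⊓ Δ).subgroupOf Δ⁆).map Δ.subtype := by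
        rw [Subgroup.map_commutator, Subgroup.subgroupOf_map_subtype, inf_assoc, inf_idem]
      rw [h1] at hg
      obtain ⟨g', hg', h2⟩ := hg
      have h3 : g' = g := Subtype.ext h2
      subst h3
      have h4 : θ g' ∈ (⁅(K ⊓ Δ).subgroupOf Δ, (K ⊓ Δ).subgroupOf Δ⁆).map θ := ⟨g', hg', rfl⟩
      rw [Subgroup.map_commutator] at h4
      rw [derivedSeries_succ]
      refine Subgroup.commutator_mono ?_ ?_ h4 <;>
      · rintro _ ⟨k, hk, rfl⟩
        exact h k hk.1
  obtain ⟨n, hn⟩ := Group.IsSolvable.solvable (G := H)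
  obtain ⟨K, hK, h⟩ := key n
  have h1 : K.subgroupOf Δ ≤ θ.ker := by
    intro g hg
    have h2 := h g hg
    rw [hn] at h2
    exact h2
  have h2 : (K.subgroupOf Δ).FiniteIndex := inferInstance
  have h3 : θ.ker.FiniteIndex := Subgroup.finiteIndex_of_le h1
  have h4 : Finite (Δ ⧸ θ.ker) := Subgroup.finite_quotient_of_finiteIndex
  exact Finite.of_equiv _ (QuotientGroup.quotientKerEquivRange θ).toEquiv

theorem quotFinite_of_solvable {Γ A M : Type*} [Group Γ] [Group.FG Γ] (hR : NoReal Γ)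
    [Group A] [MulAction A M] [Group.IsSolvable A] : QuotFinite Γ A M := by
  intro Δ hΔ x θ
  exact finite_of_solvable hR Δ hΔ θ

end solvable

/-- The action of `A` is continuous for some σ-compact topology of `A`. -/
def TopAction (A M : Type*) [Group A] [MulAction A M] [TopologicalSpace M] : Prop :=
  ∃ _ : TopologicalSpace A, SigmaCompactSpace A ∧ ContinuousSMul A M

/-- The set `C` is contained in countably many orbits of `A`. -/
def CountableMod (A : Type*) {M : Type*} [Group A] [MulAction A M] (C : Set M) : Prop :=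
  ∃ S : Set M, S.Countable ∧ ∀ x ∈ C, ∃ s ∈ S, x ∈ MulAction.orbit A s

/-- The finite measure `μ` is invariant under `Γ`. -/
def FiniteInvariant (Γ : Type*) {M : Type*} [Group Γ] [MulAction Γ M] [MeasurableSpace M]
    (μ : Measure M) : Prop :=
  IsFiniteMeasure μ ∧ ∀ g : Γ, MeasurePreserving (fun x : M => g • x) μ μ

section sets

variable {M : Type*} [TopologicalSpace M] [T2Space M] {Γ A : Type*} [Group Γ] [MulAction Γ M]
  [Group A] [MulAction A M]

/-- A non empty compact set which is invariant under `Γ` and `A` and is contained in countably many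
orbits of `A` contains a point whose orbit under `Γ` is contained in finitely many orbits of `A`. -/
theorem exists_finiteMod (hc : ∀ g : Γ, Continuous (fun x : M => g • x))
    (hcomm : ∀ (g : Γ) (a : A) (x : M), g • a • x = a • g • x) (hA : TopAction A M) {C : Set M}
    (hC : IsCompact C) (hne : C.Nonempty)
    (hcount : ∃ S : Set M, S.Countable ∧ ∀ x ∈ C, ∃ s ∈ S, x ∈ MulAction.orbit A s)
    (hinv : ∀ g : Γ, ∀ x ∈ C, g • x ∈ C) (hinvA : ∀ a : A, ∀ x ∈ C, a • x ∈ C) :
    ∃ x ∈ C, FiniteMod Γ A x := by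
  obtain ⟨_, _, hAc⟩ := hA
  have hca : ∀ a : A, Continuous (fun x : M => a • x) := fun a => continuous_const_smul a
  let S : Set (Set M) := {L | L ⊆ C ∧ IsClosed L ∧ L.Nonempty ∧ (∀ g : Γ, ∀ x ∈ L, g • x ∈ L) ∧
    ∀ a : A, ∀ x ∈ L, a • x ∈ L}
  have hz : ∃ m, Minimal (· ∈ S) m := by
    refine zorn_superset S fun c hcS hchain => ?_
    rcases c.eq_empty_or_nonempty with rfl | hcne
    · exact ⟨C, ⟨Subset.rfl, hC.isClosed, hne, hinv, hinvA⟩, by simp⟩
    · refine ⟨⋂₀ c, ⟨?_, ?_, ?_, ?_, ?_⟩, fun s hs => sInter_subset_of_mem hs⟩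
      · obtain ⟨L, hL⟩ := hcne
        exact (sInter_subset_of_mem hL).trans (hcS hL).1
      · exact isClosed_sInter fun L hL => (hcS hL).2.1
      · refine IsCompact.nonempty_sInter_of_directed_nonempty_isCompact_isClosed (S := c) (hS := hcne.to_subtype)
          (fun a ha b hb => (hchain.total ha hb).elim (fun h => ⟨a, ha, Subset.rfl, h⟩)
            fun h => ⟨b, hb, h, Subset.rfl⟩) (fun L hL => (hcS hL).2.2.1)
          (fun L hL => hC.of_isClosed_subset (hcS hL).2.1 (hcS hL).1) fun L hL => (hcS hL).2.1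
      · intro g x hx L hL
        exact (hcS hL).2.2.2.1 g x (hx L hL)
      · intro a x hx L hL
        exact (hcS hL).2.2.2.2 a x (hx L hL)
  obtain ⟨L, hLS, hmin⟩ := hz
  obtain ⟨hLC, hLc, hLne, hLi, hLa⟩ := hLS
  have hLcomp : IsCompact L := hC.of_isClosed_subset hLc hLC
  -- an orbit of `A` with interior
  obtain ⟨x, hxL, U, hU, hxU, hUx⟩ : ∃ x ∈ L, ∃ U : Set M, IsOpen U ∧ x ∈ U ∧
      U ∩ L ⊆ MulAction.orbit A x := by
    have : CompactSpace L := isCompact_iff_compactSpace.1 hLcomp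
    have : Nonempty L := hLne.to_subtype
    obtain ⟨T, hT, hTc⟩ := hcount
    have : Countable T := hT.to_subtype
    let F : T × ℕ → Set L := fun p =>
      Subtype.val ⁻¹' ((fun a : A => a • (p.1 : M)) '' compactCovering A p.2)
    have hF : ∀ p, IsClosed (F p) := fun p =>
      (((isCompact_compactCovering A p.2).image
        (continuous_id.smul continuous_const)).isClosed).preimage continuous_subtype_val
    obtain ⟨⟨s, n⟩, y, hy⟩ := nonempty_interior_of_iUnion_of_closed (f := F) hF (by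
      refine eq_univ_of_forall fun y => ?_
      obtain ⟨s, hs, a, ha⟩ := hTc y (hLC y.2)
      obtain ⟨n, hn⟩ : ∃ n, a ∈ compactCovering A n := by
        have h1 : a ∈ ⋃ n, compactCovering A n := by rw [iUnion_compactCovering]; trivial
        exact mem_iUnion.1 h1
      exact mem_iUnion.2 ⟨(⟨s, hs⟩, n), ⟨a, hn, ha⟩⟩)
    obtain ⟨V, hV, hVe⟩ := isOpen_induced_iff.1 (isOpen_interior (s := F (s, n)))
    refine ⟨y, y.2, V, hV, ?_, ?_⟩
    · have h1 : y ∈ Subtype.val ⁻¹' V := by rw [hVe]; exact hy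
      exact h1
    · rintro z ⟨hz, hzL⟩
      have h1 : (⟨z, hzL⟩ : L) ∈ Subtype.val ⁻¹' V := hz
      rw [hVe] at h1
      obtain ⟨a, -, ha⟩ := interior_subset h1
      obtain ⟨b, -, hb⟩ := interior_subset hy
      have ha' : a • (s : M) = z := ha
      have hb' : b • (s : M) = y := hb
      refine ⟨a * b⁻¹, ?_⟩
      change (a * b⁻¹) • (y : M) = z
      rw [← hb', ← ha', mul_smul, inv_smul_smul]
  -- the translates of `U`
  let V : Γ × A → Set M := fun p => (fun y : M => p.2⁻¹ • p.1⁻¹ • y) ⁻¹' U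
  have hVo : ∀ p, IsOpen (V p) := fun p => hU.preimage ((hca p.2⁻¹).comp (hc p.1⁻¹))
  have hVx : ∀ p : Γ × A, p.2 • p.1 • x ∈ V p := by
    intro p
    change p.2⁻¹ • p.1⁻¹ • p.2 • p.1 • x ∈ U
    rw [hcomm, inv_smul_smul, inv_smul_smul]
    exact hxU
  have hkey : ∀ p : Γ × A, ∀ z ∈ L, z ∈ V p → z ∈ MulAction.orbit A (p.1 • x) := by
    intro p z hz hzV
    have h1 : p.2⁻¹ • p.1⁻¹ • z ∈ U ∩ L := ⟨hzV, hLa _ _ (hLi _ z hz)⟩
    obtain ⟨a, ha⟩ := hUx h1
    have ha' : a • x = p.2⁻¹ • p.1⁻¹ • z := ha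
    refine ⟨p.2 * a, ?_⟩
    change (p.2 * a) • p.1 • x = z
    rw [mul_smul, ← hcomm, ha', hcomm, smul_inv_smul, smul_inv_smul]
  set O : Set M := {z | ∃ p : Γ × A, z = p.2 • p.1 • x} with hO
  have hL' : L ⊆ O := by
    by_contra hcon
    obtain ⟨z, hzL, hzO⟩ := not_subset.1 hcon
    have hmem : L \ O ∈ S := by
      refine ⟨sdiff_subset.trans hLC, ?_, ⟨z, hzL, hzO⟩, ?_, ?_⟩
      · have h1 : L \ O = L ∩ (⋃ p, V p)ᶜ := by
          ext y
          constructor
          · rintro ⟨h1, h2⟩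
            refine ⟨h1, fun h3 => h2 ?_⟩
            obtain ⟨p, hp⟩ := mem_iUnion.1 h3
            obtain ⟨a, ha⟩ := hkey p y h1 hp
            exact ⟨(p.1, a), ha.symm⟩
          · rintro ⟨h1, h2⟩
            refine ⟨h1, ?_⟩
            rintro ⟨p, rfl⟩
            exact h2 (mem_iUnion.2 ⟨p, hVx p⟩)
        rw [h1]
        exact hLc.inter (isOpen_iUnion hVo).isClosed_compl
      · rintro g y ⟨h1, h2⟩
        refine ⟨hLi g y h1, fun h3 => h2 ?_⟩
        obtain ⟨p, hp⟩ := h3
        refine ⟨(g⁻¹ * p.1, p.2), ?_⟩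
        change y = p.2 • (g⁻¹ * p.1) • x
        rw [mul_smul, ← hcomm, ← hp, inv_smul_smul]
      · rintro a y ⟨h1, h2⟩
        refine ⟨hLa a y h1, fun h3 => h2 ?_⟩
        obtain ⟨p, hp⟩ := h3
        refine ⟨(p.1, a⁻¹ * p.2), ?_⟩
        change y = (a⁻¹ * p.2) • p.1 • x
        rw [mul_smul, ← hp, inv_smul_smul]
    have h2 := hmin hmem sdiff_subset hxL
    exact h2.2 ⟨(1, 1), by simp⟩
  refine ⟨x, hLC hxL, ?_⟩
  obtain ⟨t, ht⟩ := hLcomp.elim_finite_subcover V hVo (by
    intro z hz
    obtain ⟨p, rfl⟩ := hL' hz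
    exact mem_iUnion.2 ⟨p, hVx p⟩)
  refine ⟨(fun p : Γ × A => p.1 • x) '' (t : Set (Γ × A)), t.finite_toSet.image _, fun g => ?_⟩
  obtain ⟨p, hp, hpV⟩ := mem_iUnion₂.1 (ht (hLi g x hxL))
  exact ⟨p.1 • x, ⟨p, hp, rfl⟩, hkey p _ (hLi g x hxL) hpV⟩

/-- Orbits of `A` of positive measure for an invariant finite measure. -/
theorem finiteMod_of_measure [MeasurableSpace M] [BorelSpace M] (μ : Measure M)
    [IsFiniteMeasure μ] (hcomm : ∀ (g : Γ) (a : A) (x : M), g • a • x = a • g • x)
    (hA : TopAction A M) (hinv : ∀ g : Γ, MeasurePreserving (fun x : M => g • x) μ μ) {x : M}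
    (hx : μ (MulAction.orbit A x) ≠ 0) : FiniteMod Γ A x := by
  obtain ⟨_, _, hAc⟩ := hA
  have hmeas : ∀ y : M, MeasurableSet (MulAction.orbit A y) := by
    intro y
    have h1 : MulAction.orbit A y = ⋃ n, (fun a : A => a • y) '' compactCovering A n := by
      ext z
      constructor
      · rintro ⟨a, rfl⟩
        obtain ⟨n, hn⟩ : ∃ n, a ∈ compactCovering A n := by
          have h1 : a ∈ ⋃ n, compactCovering A n := by rw [iUnion_compactCovering]; trivial
          exact mem_iUnion.1 h1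
        exact mem_iUnion.2 ⟨n, a, hn, rfl⟩
      · intro hz
        obtain ⟨n, a, -, rfl⟩ := mem_iUnion.1 hz
        exact ⟨a, rfl⟩
    rw [h1]
    exact MeasurableSet.iUnion fun n => ((isCompact_compactCovering A n).image
      (continuous_id.smul continuous_const)).isClosed.measurableSet
  have hsame : ∀ g : Γ, μ (MulAction.orbit A (g • x)) = μ (MulAction.orbit A x) := by
    intro g
    rw [← (hinv g).measure_preimage (hmeas (g • x)).nullMeasurableSet]
    congr 1
    ext z
    constructor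
    · rintro ⟨a, ha⟩
      have ha' : a • g • x = g • z := ha
      rw [← hcomm] at ha'
      exact ⟨a, smul_left_cancel g ha'⟩
    · rintro ⟨a, rfl⟩
      exact ⟨a, (hcomm g a x).symm⟩
  let I := {O : Set M // ∃ y, O = MulAction.orbit A y}
  have hfin := Measure.finite_const_le_meas_of_disjoint_iUnion μ (ε := μ (MulAction.orbit A x))
    (pos_iff_ne_zero.2 hx) (As := fun O : I => (O : Set M))
    (by rintro ⟨O, y, rfl⟩; exact hmeas y)
    (by
      rintro ⟨O, y, rfl⟩ ⟨P, z, rfl⟩ hne
      refine Set.disjoint_left.2 fun w hw hw' => hne ?_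
      apply Subtype.ext
      change MulAction.orbit A y = MulAction.orbit A z
      rw [← MulAction.orbit_eq_iff.2 hw, MulAction.orbit_eq_iff.2 hw']) (measure_ne_top μ _)
  choose c hc using fun O : I => O.2
  refine ⟨c '' _, hfin.image c, fun g => ?_⟩
  refine ⟨c ⟨MulAction.orbit A (g • x), g • x, rfl⟩,
    ⟨_, (hsame g).ge, rfl⟩, ?_⟩
  rw [← hc ⟨MulAction.orbit A (g • x), g • x, rfl⟩]
  exact MulAction.mem_orbit_self _

end sets

end Pool.Agent.Run7.h945.TH
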