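import Pool.Agent.Run7.h945.TH.Maps
import Pool.Agent.Run7.h945.TH.AE

/-!
# A class of actions with finite image
-/

set_option autoImplicit false

open Set Filter Topology Metric Function MeasureTheory
open scoped Manifold ContDiff

noncomputable section

namespace Pool.Agent.Run7.h945.TH

open Pool.Agent.Y522

/-- In every connected component of `X` the set `S` is not meagre or not a null set. -/
def LargeSet {Γ : Type} [Group Γ] (X : ClosedAction Γ) (S : Set X.M) : Prop :=
  ∀ y : X.M, ¬ IsMeagre (connectedComponent y ∩ S) ∨ ¬ NullSet X.dim (connectedComponent y ∩ S)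

lemma LargeSet.mono {Γ : Type} [Group Γ] {X : ClosedAction Γ} {S T : Set X.M} (h : LargeSet X S)
    (hST : S ⊆ T) : LargeSet X T := fun y =>
  (h y).imp (fun h1 h2 => h1 (h2.mono (inter_subset_inter_right _ hST)))
    (fun h1 h2 => h1 (h2.mono (inter_subset_inter_right _ hST)))

/-- Closed manifolds in whose components the points with finite orbits are a large set. -/
theorem finite_of_large {Γ : Type} [Group Γ] [Group.FG Γ] (hR : NoReal Γ)
    (X : ClosedAction Γ) (h : LargeSet X {x : X.M | (MulAction.orbit Γ x).Finite}) :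
    FiniteImage X := by
  have : LocallyConnectedSpace X.M := ChartedSpace.locallyConnectedSpace (E X.dim) X.M
  have hC1 : ∀ g : Γ, ContMDiff 𝓘(ℝ, E X.dim) 𝓘(ℝ, E X.dim) 1 (fun x : X.M => g • x) :=
    fun g => (X.smooth g).of_le (by exact_mod_cast le_top)
  have hM1 : IsManifold (𝓡 X.dim) 1 X.M := IsManifold.of_le (n := ∞) (by exact_mod_cast le_top)
  refine finite_of_comps fun y => ?_
  have h1 : ∃ n, ∃ w ∈ connectedComponent y,
      w ∈ interior {x : X.M | ∀ k ∈ kn Γ n, k • x = x} := by
    by_contra hcon
    push Not at hcon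
    have hsub : connectedComponent y ∩ {x : X.M | (MulAction.orbit Γ x).Finite} ⊆
        ⋃ n, connectedComponent y ∩ {x : X.M | ∀ k ∈ kn Γ n, k • x = x} := by
      rintro x ⟨hx1, hx2⟩
      obtain ⟨n, hn⟩ := fixed_of_finite_orbit hx2
      exact mem_iUnion.2 ⟨n, hx1, hn⟩
    rcases h y with h | h
    · apply h
      refine (isMeagre_iUnion fun n => IsNowhereDense.isMeagre ?_ : IsMeagre (⋃ n,
        connectedComponent y ∩ {x : X.M | ∀ k ∈ kn Γ n, k • x = x})).mono hsub
      rw [(isClosed_connectedComponent.inter
        (isClosed_fixed (fun g => (X.smooth g).continuous) (kn Γ n))).isNowhereDense_iff]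
      refine eq_empty_of_forall_notMem fun w hw => ?_
      exact hcon n w (interior_subset hw).1 (interior_mono inter_subset_right hw)
    · apply h
      intro x
      have h2 : chartAt (E X.dim) x '' (connectedComponent y ∩
          {x : X.M | (MulAction.orbit Γ x).Finite} ∩ (chartAt (E X.dim) x).source) ⊆
          ⋃ n, chartAt (E X.dim) x '' ((connectedComponent y ∩
            {x : X.M | ∀ k ∈ kn Γ n, k • x = x}) ∩ (chartAt (E X.dim) x).source) := by
        rintro _ ⟨z, ⟨hz1, hz2⟩, rfl⟩
        obtain ⟨n, hn⟩ := mem_iUnion.1 (hsub hz1)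
        exact mem_iUnion.2 ⟨n, z, ⟨hn, hz2⟩, rfl⟩
      refine measure_mono_null h2 (measure_iUnion_null fun n => ?_)
      by_contra h3
      obtain ⟨w, hw1, hw2⟩ := interior_of_not_null (M := X.M) hC1 (kn Γ n) inferInstance
        (hR _ inferInstance) (C := connectedComponent y) isClosed_connectedComponent
        (fun h4 => h3 (h4 x))
      exact hcon n w hw1 hw2
  obtain ⟨n, w, hwy, hw⟩ := h1
  refine ⟨kn Γ n, inferInstance, fun z hz => ?_⟩
  refine spread_comp hC1 (kn Γ n) inferInstance (hR _ inferInstance) (x := w) hw ?_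
  rw [← connectedComponent_eq hwy]
  exact hz

/-- The map `F : X → Y` is equivariant, the group `A` acts on `X`, its action commutes with `Γ`, and
`A` is solvable or all homomorphisms from subgroups of finite index of `Γ` to the groups `N(A_x)/A_x`
have finite image; in every connected component of `X` the set of the points `x` such that the fibre
of `F` through `x` is contained in finitely many orbits of `A` is not meagre or not null. -/
structure FibresInOrbits {Γ : Type} [Group Γ] (X Y : ClosedAction Γ) (F : X.M → Y.M)
    (A : Type) [Group A] [MulAction A X.M] : Prop where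
  equivariant : ∀ (g : Γ) x, F (g • x) = g • F x
  commute : ∀ (g : Γ) (a : A) (x : X.M), g • a • x = a • g • x
  quot : Group.IsSolvable A ∨ QuotFinite Γ A X.M
  fibres : LargeSet X {x : X.M |
    ∃ T : Set X.M, T.Finite ∧ ∀ z, F z = F x → ∃ s ∈ T, z ∈ MulAction.orbit A s}

theorem finite_of_fibresInOrbits {Γ : Type} [Group Γ] [Group.FG Γ] (hR : NoReal Γ)
    {X Y : ClosedAction Γ} {F : X.M → Y.M} {A : Type} [Group A] [MulAction A X.M]
    (h : FibresInOrbits X Y F A) (hY : FiniteImage Y) : FiniteImage X := by
  have : LocallyConnectedSpace X.M := ChartedSpace.locallyConnectedSpace (E X.dim) X.M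
  have hQ : QuotFinite Γ A X.M := by
    rcases h.quot with hA | hA
    · exact quotFinite_of_solvable hR
    · exact hA
  have hfm : ∀ x : X.M, (∃ T : Set X.M, T.Finite ∧ ∀ z, F z = F x → ∃ s ∈ T,
      z ∈ MulAction.orbit A s) → (MulAction.orbit Γ x).Finite := by
    rintro x ⟨T, hT, hx⟩
    refine finite_orbit_of_finiteMod h.commute hQ ?_
    have h1 : (MulAction.orbit Γ (F x)).Finite := finite_orbit_of_finite_image hY (F x)
    have h2 : ∀ y ∈ MulAction.orbit Γ (F x), ∃ g : Γ, g • F x = y := fun y hy => hy
    choose! c hc using h2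
    refine ⟨⋃ y ∈ MulAction.orbit Γ (F x), (fun s => c y • s) '' T,
      h1.biUnion fun y _ => hT.image _, fun g => ?_⟩
    have hy : g • F x ∈ MulAction.orbit Γ (F x) := ⟨g, rfl⟩
    obtain ⟨s, hs, a, ha⟩ := hx ((c (g • F x))⁻¹ • g • x) (by
      rw [h.equivariant, h.equivariant, inv_smul_eq_iff, hc _ hy])
    have ha' : a • s = (c (g • F x))⁻¹ • g • x := ha
    refine ⟨c (g • F x) • s, mem_iUnion₂.2 ⟨g • F x, hy, s, hs, rfl⟩, a, ?_⟩
    change a • c (g • F x) • s = g • x
    rw [← h.commute, ha', smul_inv_smul]
  exact finite_of_large hR X (h.fibres.mono fun x hx => hfm x hx)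

/-- The smallest class of closed manifolds with smooth actions of `Γ` such that `X` belongs to the
class in each of the following cases.
* The dimension of `X` is smaller than `r`.
* The image of `Γ` in the group of permutations of `X` is finite.
* There are a member `Y` and a smooth equivariant map `F : X → Y` such that every connected component
  of `X` contains a point `x` with `dim X < r + rank_x F`.
* There are a member `Y`, an equivariant map `F : X → Y` and a group `A` which acts on `X` and
  commutes with `Γ` which satisfy `FibresInOrbits`.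
* There are members `Y x` and equivariant maps `ι x : Y x → X`, `x ∈ X`, such that in every connected
  component of `X` the set of the points `x` of the image of `ι x` is not meagre or not null.
* All homomorphisms from subgroups of finite index of `Γ` to `GL_m(ℝ)`, `m = dim X`, have finite image,
  and there are a member `Y` and an equivariant map `ι : Y → X` whose image meets every connected
  component of `X`. -/
inductive Reducible {Γ : Type} [Group Γ] (r : ℕ) : ClosedAction Γ → Prop
  | dim_lt (X : ClosedAction Γ) : X.dim < r → Reducible r X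
  | finite (X : ClosedAction Γ) : FiniteImage X → Reducible r X
  | map (X Y : ClosedAction Γ) (F : X.M → Y.M) : SmoothEquivariant X Y F → LargeRank r X Y F →
      Reducible r Y → Reducible r X
  | fibres (X Y : ClosedAction Γ) (F : X.M → Y.M) (A : Type) [Group A] [MulAction A X.M] :
      FibresInOrbits X Y F A → Reducible r Y → Reducible r X
  | cover (X : ClosedAction Γ) (Y : X.M → ClosedAction Γ) (ι : ∀ x, (Y x).M → X.M) :
      (∀ x, ∀ (g : Γ) z, ι x (g • z) = g • ι x z) →
      LargeSet X {x : X.M | x ∈ range (ι x)} →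
      (∀ x, Reducible r (Y x)) → Reducible r X
  | point (X Y : ClosedAction Γ) (ι : Y.M → X.M) : FiniteLinear Γ X.dim →
      (∀ (g : Γ) z, ι (g • z) = g • ι z) →
      (∀ y : X.M, ∃ z, ι z ∈ connectedComponent y) → Reducible r Y → Reducible r X

theorem orbit_of_map {Γ : Type} [Group Γ] {X Y : ClosedAction Γ} {ι : Y.M → X.M}
    (h : ∀ (g : Γ) z, ι (g • z) = g • ι z) (hY : FiniteImage Y) (z : Y.M) :
    (MulAction.orbit Γ (ι z)).Finite := by
  refine ((finite_orbit_of_finite_image hY z).image ι).subset ?_
  rintro _ ⟨g, rfl⟩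
  exact ⟨g • z, ⟨g, rfl⟩, h g z⟩

theorem finite_of_reducible {Γ : Type} [Group Γ] [Group.FG Γ] (hR : NoReal Γ) {r : ℕ}
    (hA : FiniteActionsAll Γ r) (X : ClosedAction Γ) (h : Reducible r X) : FiniteImage X := by
  induction h with
  | dim_lt X h => exact hA.self X.dim h X.M X.smooth
  | finite X h => exact h
  | map X Y F hF hx _ ih => exact finite_of_map hR hA X.smooth ih F hF.1 hF.2 hx
  | fibres X Y F A hF _ ih => exact finite_of_fibresInOrbits hR hF ih
  | cover X Y ι h1 h2 _ ih =>
    refine finite_of_large hR X (h2.mono ?_)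
    rintro x ⟨z, hz⟩
    have h3 := orbit_of_map (h1 x) (ih x) z
    rwa [hz] at h3
  | point X Y ι hL h1 h2 _ ih =>
    have : LocallyConnectedSpace X.M := ChartedSpace.locallyConnectedSpace (E X.dim) X.M
    have hC1 : ∀ g : Γ, ContMDiff 𝓘(ℝ, E X.dim) 𝓘(ℝ, E X.dim) 1 (fun x : X.M => g • x) :=
      fun g => (X.smooth g).of_le (by exact_mod_cast le_top)
    refine finite_of_comps fun y => ?_
    obtain ⟨z, hz⟩ := h2 y
    have h3 := orbit_of_map h1 ih z
    have hL' : FiniteLinear Γ (Module.finrank ℝ (E X.dim)) := by
      rw [finrank_euclideanSpace, Fintype.card_fin]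
      exact hL
    obtain ⟨K, hK, h4⟩ := near_of_finite_orbit hR hL' hC1 h3
    refine ⟨K, hK, fun w hw => ?_⟩
    refine spread_comp hC1 K inferInstance (hR K hK) h4 ?_
    rw [← connectedComponent_eq hz]
    exact hw

end Pool.Agent.Run7.h945.TH
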