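import Pool.Agent.Run7.h945.TH.Maps

/-!
# Functions whose translates span a space of finite dimension
-/

set_option autoImplicit false

open Set Filter Topology Metric Function MeasureTheory
open scoped Manifold ContDiff

noncomputable section

namespace Pool.Agent.Run7.h945.TH

open Pool.Agent.Y522

/-- All homomorphisms with bounded image from `Γ` to `GL_d(ℝ)`, `d ≤ N`, have finite image. -/
def BoundedFinite (Γ : Type) [Group Γ] (N : ℕ) : Prop :=
  ∀ d ≤ N, ∀ σ : Γ →* GL (Fin d) ℝ,
    (∃ C : ℝ, ∀ g i j, |(σ g : Matrix (Fin d) (Fin d) ℝ) i j| ≤ C) → Finite σ.range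

/-- An equivariant map from a compact space to a linear representation is invariant under a
subgroup of finite index, if bounded representations of at most this dimension have finite image. -/
theorem exists_invariant_gen {Γ : Type} [Group Γ] {N : ℕ} (hB : BoundedFinite Γ N)
    {M : Type} [TopologicalSpace M] [CompactSpace M] [MulAction Γ M]
    {V : Type} [AddCommGroup V] [Module ℝ V] [FiniteDimensional ℝ V]
    (hV : Module.finrank ℝ V ≤ N)
    (ρ : Γ → V →ₗ[ℝ] V) (hρ1 : ρ 1 = LinearMap.id) (hρm : ∀ g h, ρ (g * h) = (ρ g).comp (ρ h))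
    (F : M → V) (hF : ∀ l : V →ₗ[ℝ] ℝ, Continuous fun x => l (F x))
    (heq : ∀ (g : Γ) x, F (g • x) = ρ g (F x)) :
    ∃ Δ : Subgroup Γ, Δ.FiniteIndex ∧ ∀ g ∈ Δ, ∀ x, F (g • x) = F x := by
  set W : Submodule ℝ V := Submodule.span ℝ (range F) with hW
  have hFW : ∀ x, F x ∈ W := fun x => Submodule.subset_span ⟨x, rfl⟩
  have hρW : ∀ g : Γ, ∀ w ∈ W, ρ g w ∈ W := by
    intro g
    have h1 : W.map (ρ g) ≤ W := by
      rw [hW, Submodule.map_span_le]
      rintro _ ⟨x, rfl⟩
      rw [← heq]
      exact Submodule.subset_span ⟨g • x, rfl⟩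
    intro w hw
    exact h1 ⟨w, hw, rfl⟩
  let FW : M → W := fun x => ⟨F x, hFW x⟩
  have hs : ⊤ ≤ Submodule.span ℝ (range FW) := by
    have h1 : (Submodule.span ℝ (range FW)).map W.subtype = W := by
      rw [Submodule.map_span, ← range_comp]
      rfl
    intro w _
    have h2 : (w : V) ∈ (Submodule.span ℝ (range FW)).map W.subtype := by
      rw [h1]; exact w.2
    obtain ⟨w', hw', h3⟩ := h2
    have h4 : w' = w := Subtype.ext h3
    rwa [← h4]
  let b0 := Module.Basis.ofSpan hs
  have hfin := Module.Finite.finite_basis b0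
  let e := Finite.equivFin ((linearIndepOn_empty ℝ id).extend (empty_subset (range FW)))
  let b := b0.reindex e
  have hd : Nat.card ((linearIndepOn_empty ℝ id).extend (empty_subset (range FW))) ≤ N := by
    rw [← Module.finrank_eq_nat_card_basis b0]
    exact (Submodule.finrank_le W).trans hV
  have hbs : ∀ j, ∃ x, b j = FW x := by
    intro j
    have h1 : b j ∈ range b0 := ⟨e.symm j, by rw [Module.Basis.reindex_apply]⟩
    obtain ⟨x, hx⟩ := Module.Basis.ofSpan_subset hs h1
    exact ⟨x, hx.symm⟩
  choose x hx using hbs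
  let σ0 : Γ →* Module.End ℝ W :=
    { toFun := fun g => (ρ g).restrict (hρW g)
      map_one' := by
        ext w
        simp [hρ1]
      map_mul' := fun g h => by
        ext w
        simp [hρm] }
  let TM : Module.End ℝ W →* Matrix (Fin (Nat.card ((linearIndepOn_empty ℝ id).extend
      (empty_subset (range FW))))) (Fin (Nat.card ((linearIndepOn_empty ℝ id).extend
      (empty_subset (range FW))))) ℝ :=
    { toFun := fun S => LinearMap.toMatrixAlgEquiv b S
      map_one' := map_one _
      map_mul' := fun S T => map_mul _ S T }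
  let σ := (TM.comp σ0).toHomUnits
  have hσ : ∀ g i j, (σ g : Matrix _ _ ℝ) i j = b.repr (FW (g • x j)) i := by
    intro g i j
    have h1 : (σ g : Matrix _ _ ℝ) = LinearMap.toMatrixAlgEquiv b (σ0 g) := rfl
    rw [h1, LinearMap.toMatrixAlgEquiv_apply]
    congr 2
    rw [hx j]
    apply Subtype.ext
    exact (heq g (x j)).symm
  have hbound : ∀ i, ∃ C : ℝ, ∀ y, |b.repr (FW y) i| ≤ C := by
    intro i
    obtain ⟨l, hl⟩ := LinearMap.exists_extend (b.coord i)
    have h1 : Continuous (fun y => b.coord i (FW y)) := by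
      have h2 : (fun y => b.coord i (FW y)) = fun y => l (F y) := by
        funext y
        rw [← hl]
        rfl
      rw [h2]
      exact hF l
    obtain ⟨C, hC⟩ := isCompact_univ.exists_bound_of_continuousOn h1.continuousOn
    exact ⟨C, fun y => hC y (mem_univ y)⟩
  choose C hC using hbound
  have hfr := hB _ hd σ ⟨∑ i, |C i|, fun g i j => by
    rw [hσ]
    refine (hC i _).trans ((le_abs_self _).trans ?_)
    exact Finset.single_le_sum (f := fun i => |C i|) (fun _ _ => abs_nonneg _)
      (Finset.mem_univ i)⟩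
  refine ⟨σ.ker, inferInstance, fun g hg y => ?_⟩
  have h1 : σ g = 1 := hg
  have h2 : LinearMap.toMatrixAlgEquiv b (σ0 g) = 1 := congrArg Units.val h1
  have h3 : σ0 g = 1 := (LinearMap.toMatrixAlgEquiv b).injective (by rw [h2, map_one])
  have h4 := congrArg (fun S : Module.End ℝ W => ((S (FW y) : W) : V)) h3
  rw [heq]
  exact h4

/-- The translates of the function `f` under `Γ` lie in a space of dimension at most `N`. -/
def FiniteType (Γ : Type) [Group Γ] (N : ℕ) {M : Type} [MulAction Γ M] (f : M → ℝ) : Prop :=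
  ∃ V : Submodule ℝ (M → ℝ), FiniteDimensional ℝ V ∧ Module.finrank ℝ V ≤ N ∧
    ∀ g : Γ, (fun x => f (g • x)) ∈ V

/-- A continuous function of finite type is invariant under a subgroup of finite index. -/
theorem FiniteType.exists_invariant {Γ : Type} [Group Γ] {N : ℕ} (hB : BoundedFinite Γ N)
    {M : Type} [TopologicalSpace M] [CompactSpace M] [MulAction Γ M]
    (hc : ∀ g : Γ, Continuous (fun x : M => g • x)) {f : M → ℝ} (hf : Continuous f)
    (h : FiniteType Γ N f) : ∃ Δ : Subgroup Γ, Δ.FiniteIndex ∧ ∀ g ∈ Δ, ∀ x, f (g • x) = f x := by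
  obtain ⟨V, hV, hN, hfV⟩ := h
  let T : Γ → (M → ℝ) →ₗ[ℝ] (M → ℝ) := fun g =>
    { toFun := fun φ x => φ (g • x)
      map_add' := fun _ _ => rfl
      map_smul' := fun _ _ => rfl }
  set W : Submodule ℝ (M → ℝ) := Submodule.span ℝ (range fun g : Γ => T g f) with hW
  have hWV : W ≤ V := by
    rw [hW, Submodule.span_le]
    rintro _ ⟨g, rfl⟩
    exact hfV g
  have hWfin : FiniteDimensional ℝ W := Submodule.finiteDimensional_of_le hWV
  have hTW : ∀ g, ∀ w ∈ W, T g w ∈ W := by
    intro g
    have h1 : W.map (T g) ≤ W := by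
      rw [hW, Submodule.map_span_le]
      rintro _ ⟨k, rfl⟩
      refine Submodule.subset_span ⟨k * g, ?_⟩
      funext x
      change f ((k * g) • x) = f (k • g • x)
      rw [mul_smul]
    intro w hw
    exact h1 ⟨w, hw, rfl⟩
  have hWc : ∀ w ∈ W, Continuous w := by
    intro w hw
    rw [hW] at hw
    induction hw using Submodule.span_induction with
    | mem w hw =>
      obtain ⟨g, rfl⟩ := hw
      exact hf.comp (hc g)
    | zero => exact continuous_const
    | add u v _ _ hu hv => exact hu.add hv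
    | smul a u _ hu => exact hu.const_smul a
  let ev : M → Module.Dual ℝ W := fun x =>
    { toFun := fun w => (w : M → ℝ) x
      map_add' := fun _ _ => rfl
      map_smul' := fun _ _ => rfl }
  obtain ⟨Δ, hΔ, h⟩ := exists_invariant_gen (V := Module.Dual ℝ W) hB
    (by
      rw [Subspace.dual_finrank_eq]
      exact (Submodule.finrank_mono hWV).trans hN)
    (fun g => Module.Dual.transpose (R := ℝ) ((T g).restrict (hTW g)))
    (by
      ext l w
      change l _ = l _
      congr 1
      apply Subtype.ext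
      funext x
      change (w : M → ℝ) ((1 : Γ) • x) = _
      rw [one_smul])
    (fun g k => by
      ext l w
      change l _ = l _
      congr 1
      apply Subtype.ext
      funext x
      change (w : M → ℝ) ((g * k) • x) = (w : M → ℝ) (g • k • x)
      rw [mul_smul])
    ev
    (fun l => by
      obtain ⟨w, hw⟩ := (Module.evalEquiv ℝ W).surjective l
      have h1 : (fun x => l (ev x)) = (w : M → ℝ) := by
        funext x
        rw [← hw]
        rfl
      rw [h1]
      exact hWc w w.2)
    (fun g x => rfl)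
  refine ⟨Δ, hΔ, fun g hg x => ?_⟩
  have hfW : f ∈ W := by
    refine Submodule.subset_span ⟨1, ?_⟩
    funext x
    change f ((1 : Γ) • x) = f x
    rw [one_smul]
  have h1 := congrArg (fun l : Module.Dual ℝ W => l ⟨f, hfW⟩) (h g hg x)
  exact h1

/-- Homomorphisms to `GL_d(ℝ)`, `d ≤ 1`, have finite image. -/
theorem boundedFinite_one {Γ : Type} [Group Γ] (h : ∀ φ : Γ →* Multiplicative ℝ, ∀ g, φ g = 1)
    {N : ℕ} (hN : N ≤ 1) : BoundedFinite Γ N := by
  intro d hd σ _
  have hd1 : d ≤ 1 := hd.trans hN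
  let L : ℝˣ →* Multiplicative ℝ :=
    { toFun := fun u => Multiplicative.ofAdd (Real.log |(u : ℝ)|)
      map_one' := by simp
      map_mul' := fun u v => by
        rw [← ofAdd_add]
        congr 1
        rw [Units.val_mul, abs_mul, Real.log_mul] <;> simp }
  let D : Γ →* ℝˣ := Matrix.GeneralLinearGroup.det.comp σ
  have h1 : ∀ g, D g = 1 ∨ D g = -1 := by
    intro g
    have h2 : Real.log |(D g : ℝ)| = 0 := by
      have h3 := h (L.comp D) g
      exact congrArg Multiplicative.toAdd h3
    have h4 : |(D g : ℝ)| = 1 := by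
      rcases Real.log_eq_zero.1 h2 with h5 | h5 | h5
      · exact absurd (abs_eq_zero.1 h5) (D g).ne_zero
      · exact h5
      · have := abs_nonneg (D g : ℝ)
        linarith
    rcases (abs_eq zero_le_one).1 h4 with h5 | h5
    · left; exact Units.ext h5
    · right; exact Units.ext (by simpa using h5)
  have hsub : Subsingleton (Fin d) := Fin.subsingleton_iff_le_one.2 hd1
  refine Finite.of_injective (β := ({1, -1} : Set ℝˣ)) (fun x => ⟨Matrix.GeneralLinearGroup.det
    (x : GL (Fin d) ℝ), ?_⟩) ?_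
  · obtain ⟨_, g, rfl⟩ := x
    rcases h1 g with h2 | h2
    · left; exact h2
    · right; exact h2
  · rintro ⟨a, ha⟩ ⟨b, hb⟩ hab
    apply Subtype.ext
    have h2 : (a : Matrix (Fin d) (Fin d) ℝ).det = (b : Matrix (Fin d) (Fin d) ℝ).det := by
      have h3 : Matrix.GeneralLinearGroup.det a = Matrix.GeneralLinearGroup.det b :=
        congrArg Subtype.val hab
      exact congrArg Units.val h3
    change a = b
    apply Units.ext
    rcases isEmpty_or_nonempty (Fin d) with he | ⟨⟨i0⟩⟩
    · ext i
      exact he.elim i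
    · have : Unique (Fin d) := ⟨⟨i0⟩, fun j => Subsingleton.elim j i0⟩
      rw [Matrix.det_unique, Matrix.det_unique] at h2
      ext i j
      rw [Subsingleton.elim i default, Subsingleton.elim j default]
      exact h2

/-- Smooth functions of finite type under subgroups of finite index. -/
def SmoothFiniteType {Γ : Type} [Group Γ] (N : ℕ) (X : ClosedAction Γ) (f : X.M → ℝ) : Prop :=
  ContMDiff (𝓡 X.dim) 𝓘(ℝ, ℝ) ∞ f ∧ ∃ Δ : Subgroup Γ, Δ.FiniteIndex ∧ FiniteType Δ N f

/-- **Functions of finite type.** -/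
theorem finite_of_finiteType {Γ : Type} [Group Γ] [Group.FG Γ] (hR : NoReal Γ) {r : ℕ}
    (hA : FiniteActionsAll Γ r) {N : ℕ}
    (hB : N ≤ 1 ∨ ∀ Δ : Subgroup Γ, Δ.FiniteIndex → BoundedFinite Δ N) (X : ClosedAction Γ)
    (h : ∀ y : X.M, ∃ x ∈ connectedComponent y, ∃ (k : ℕ) (f : Fin k → X.M → ℝ),
      X.dim < r + k ∧ Independent X.dim f x ∧ ∀ i, SmoothFiniteType N X (f i)) :
    FiniteImage X := by
  have : LocallyConnectedSpace X.M := ChartedSpace.locallyConnectedSpace (E X.dim) X.M
  refine finite_of_comps fun y => ?_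
  obtain ⟨x, hxy, k, f, hm, hx, hf⟩ := h y
  have h1 : ∀ i, ∃ K : Subgroup Γ, K.FiniteIndex ∧ ∀ g ∈ K, ∀ x, f i (g • x) = f i x := by
    intro i
    obtain ⟨hfi, Δ, hΔ, hft⟩ := hf i
    have hBΔ : BoundedFinite Δ N := by
      rcases hB with hB | hB
      · exact boundedFinite_one (hR Δ hΔ) hB
      · exact hB Δ hΔ
    obtain ⟨K, hK, hKf⟩ := hft.exists_invariant hBΔ (fun g => (X.smooth (g : Γ)).continuous)
      hfi.continuous
    refine ⟨K.map Δ.subtype, inferInstance, ?_⟩
    rintro _ ⟨g, hg, rfl⟩ x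
    exact hKf g hg x
  choose K hK hKf using h1
  have hfin : (⨅ i, K i).FiniteIndex := Subgroup.finiteIndex_iInf hK
  obtain ⟨K', hK', h2⟩ := comp_of_functions hR hA X.smooth (⨅ i, K i) hfin f (fun i => (hf i).1)
    (fun i g hg x => hKf i g ((Subgroup.mem_iInf.1 hg) i) x) x hx hm
  rw [connectedComponent_eq hxy]
  exact ⟨K', hK', h2⟩

end Pool.Agent.Run7.h945.TH
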