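import Pool.Agent.Run7.h945.TH.Local

/-!
# Thurston stability on manifolds

A finitely generated group without non trivial homomorphisms to `ℝ` which acts by `C¹` maps on a
connected manifold and acts trivially on a non empty open set acts trivially.
-/

set_option autoImplicit false

namespace Pool.Agent.Run7.h945.TH

open Filter Topology Set
open scoped Manifold ContDiff

variable {E : Type*} [NormedAddCommGroup E] [NormedSpace ℝ E]
  {M : Type*} [TopologicalSpace M] [ChartedSpace E M]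
  {Γ : Type*} [Group Γ] [MulAction Γ M]

/-- The element `g` in the chart at `x`. -/
noncomputable def inChart (x : M) (g : Γ) : E → E := fun e =>
  extChartAt 𝓘(ℝ, E) x (g • (extChartAt 𝓘(ℝ, E) x).symm e)

/-- The point `x` in the chart at `x`. -/
noncomputable def pt (x : M) : E := extChartAt 𝓘(ℝ, E) x x

lemma tendsto_symm (x : M) : Tendsto (extChartAt 𝓘(ℝ, E) x).symm (𝓝 (pt x)) (𝓝 x) := by
  have := (continuousAt_extChartAt_symm (I := 𝓘(ℝ, E)) x).tendsto
  rwa [extChartAt_to_inv] at this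

lemma inChart_fix {x : M} {g : Γ} (hg : g • x = x) : inChart x g (pt (E := E) x) = pt x := by
  simp only [inChart, pt, extChartAt_to_inv, hg]

lemma inChart_contDiffAt (hC : ∀ g : Γ, ContMDiff 𝓘(ℝ, E) 𝓘(ℝ, E) 1 (fun x : M => g • x))
    {x : M} {g : Γ} (hg : g • x = x) : ContDiffAt ℝ 1 (inChart x g) (pt (E := E) x) := by
  have h := (contMDiffAt_iff.1 (hC g x)).2
  simp only [hg, modelWithCornersSelf_coe, range_id, contDiffWithinAt_univ] at h
  exact h

lemma inChart_mul (hC : ∀ g : Γ, ContMDiff 𝓘(ℝ, E) 𝓘(ℝ, E) 1 (fun x : M => g • x))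
    {x : M} (g : Γ) {h : Γ} (hh : h • x = x) :
    ∀ᶠ e in 𝓝 (pt (E := E) x), inChart x (g * h) e = inChart x g (inChart x h e) := by
  have h1 : Tendsto (fun e : E => h • (extChartAt 𝓘(ℝ, E) x).symm e) (𝓝 (pt x)) (𝓝 x) := by
    have := ((hC h).continuous.tendsto x).comp (tendsto_symm (E := E) x)
    rwa [hh] at this
  filter_upwards [h1.eventually (extChartAt_source_mem_nhds (I := 𝓘(ℝ, E)) x)] with e he
  simp only [inChart]
  rw [(extChartAt 𝓘(ℝ, E) x).left_inv he, mul_smul]

lemma inChart_one (x : M) :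
    ∀ᶠ e in 𝓝 (pt (E := E) x), inChart x (1 : Γ) e = e := by
  filter_upwards [extChartAt_target_mem_nhds (I := 𝓘(ℝ, E)) x] with e he
  simp only [inChart, one_smul]
  exact (extChartAt 𝓘(ℝ, E) x).right_inv he

/-- The derivative of `g` at the fixed point `x`, in the chart at `x`. -/
noncomputable def dg (x : M) (g : Γ) : E →L[ℝ] E := fderiv ℝ (inChart x g) (pt x)

lemma dg_mul (hC : ∀ g : Γ, ContMDiff 𝓘(ℝ, E) 𝓘(ℝ, E) 1 (fun x : M => g • x))
    {x : M} {g h : Γ} (hg : g • x = x) (hh : h • x = x) :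
    dg (E := E) x (g * h) = (dg x g).comp (dg x h) := by
  unfold dg
  have h1 : inChart (E := E) x (g * h) =ᶠ[𝓝 (pt x)] inChart x g ∘ inChart x h :=
    inChart_mul hC g hh
  rw [h1.fderiv_eq]
  have h2 := inChart_fix (E := E) hh
  have h3 := (inChart_contDiffAt hC hh).differentiableAt one_ne_zero
  have h4 := (inChart_contDiffAt hC hg).differentiableAt one_ne_zero
  rw [fderiv_comp _ (by rw [h2]; exact h4) h3, h2]

lemma dg_one (x : M) : dg (E := E) x (1 : Γ) = ContinuousLinearMap.id ℝ E := by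
  unfold dg
  have h1 : inChart (E := E) x (1 : Γ) =ᶠ[𝓝 (pt x)] id := inChart_one x
  rw [h1.fderiv_eq, fderiv_id]

/-- Thurston stability at a fixed point. -/
theorem near_trivial [FiniteDimensional ℝ E]
    (hC : ∀ g : Γ, ContMDiff 𝓘(ℝ, E) 𝓘(ℝ, E) 1 (fun x : M => g • x))
    (K : Subgroup Γ) (hfg : Group.FG K) (hK : ∀ φ : K →* Multiplicative ℝ, ∀ g, φ g = 1)
    (x : M) (hfix : ∀ k ∈ K, k • x = x)
    (hd : ∀ k ∈ K, dg (E := E) x k = ContinuousLinearMap.id ℝ E) :
    ∀ᶠ y in 𝓝 x, ∀ k ∈ K, k • y = y := by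
  have hG : Germs (fun k : K => inChart (E := E) x (k : Γ)) (pt x) :=
    { fix := fun k => inChart_fix (hfix k k.2)
      one := inChart_one x
      mul := fun g h => inChart_mul hC (g : Γ) (hfix h h.2)
      diff := fun k => by
        have := (inChart_contDiffAt hC (hfix k k.2)).hasStrictFDerivAt one_ne_zero
        have h2 := hd k k.2
        unfold dg at h2
        rwa [h2] at this }
  have h1 : ∀ k : K, ∀ᶠ y in 𝓝 x, (k : Γ) • y = y := by
    intro k
    have h2 := hG.trivial hfg hK k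
    have h3 : Tendsto (extChartAt 𝓘(ℝ, E) x) (𝓝 x) (𝓝 (pt x)) :=
      (continuousAt_extChartAt (I := 𝓘(ℝ, E)) x).tendsto
    have h4 : ∀ᶠ y in 𝓝 x, (k : Γ) • y ∈ (extChartAt 𝓘(ℝ, E) x).source := by
      have := (hC (k : Γ)).continuous.tendsto x
      simp only [hfix k k.2] at this
      exact this.eventually (extChartAt_source_mem_nhds (I := 𝓘(ℝ, E)) x)
    filter_upwards [h3.eventually h2, h4, extChartAt_source_mem_nhds (I := 𝓘(ℝ, E)) x]
      with y h5 h6 h7
    simp only [inChart] at h5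
    rw [(extChartAt 𝓘(ℝ, E) x).left_inv h7] at h5
    exact (extChartAt 𝓘(ℝ, E) x).injOn h6 h7 h5
  obtain ⟨S, hS⟩ : ∃ S : Finset K, Subgroup.closure (S : Set K) = ⊤ :=
    Group.fg_iff'.1 hfg |>.imp (fun n h => h) |> fun ⟨n, S, _, h⟩ => ⟨S, h⟩
  have h8 : ∀ᶠ y in 𝓝 x, ∀ s ∈ S, (s : Γ) • y = y :=
    (Finset.eventually_all S).2 fun s _ => h1 s
  filter_upwards [h8] with y hy k hk
  have h9 : (⟨k, hk⟩ : K) ∈ Subgroup.closure (S : Set K) := by rw [hS]; trivial
  have h10 : Subgroup.closure (S : Set K) ≤ MulAction.stabilizer K y := by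
    rw [Subgroup.closure_le]
    intro s hs
    exact hy s hs
  exact h10 h9

/-- Thurston stability: the interior of the set of fixed points is closed. -/
theorem isClopen_interior [FiniteDimensional ℝ E] [T2Space M]
    (hC : ∀ g : Γ, ContMDiff 𝓘(ℝ, E) 𝓘(ℝ, E) 1 (fun x : M => g • x))
    (K : Subgroup Γ) (hfg : Group.FG K) (hK : ∀ φ : K →* Multiplicative ℝ, ∀ g, φ g = 1) :
    IsClopen (interior {x : M | ∀ k ∈ K, k • x = x}) := by
  set A : Set M := {x : M | ∀ k ∈ K, k • x = x} with hA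
  have hAc : IsClosed A := by
    have : A = ⋂ k ∈ K, {x : M | k • x = x} := by
      ext x; simp [hA]
    rw [this]
    exact isClosed_biInter fun k _ => isClosed_eq (hC k).continuous continuous_id
  have hcl : closure (interior A) ⊆ interior A := by
    intro y hy
    have hyA : y ∈ A := hAc.closure_subset_iff.2 interior_subset hy
    rw [mem_interior_iff_mem_nhds]
    refine near_trivial hC K hfg hK y hyA fun k hk => ?_
    have hcd := inChart_contDiffAt (E := E) hC (hyA k hk)
    have hcont : ContinuousAt (fderiv ℝ (inChart (E := E) y k)) (pt y) :=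
      (hcd.fderiv_right (m := 0) (by norm_num)).continuousAt
    by_contra hne'
    have h1 : ∀ᶠ e in 𝓝 (pt (E := E) y),
        fderiv ℝ (inChart (E := E) y k) e ≠ ContinuousLinearMap.id ℝ E :=
      hcont.eventually (isOpen_ne.mem_nhds hne')
    have h2 : ∃ᶠ x in 𝓝 y, x ∈ interior A := mem_closure_iff_frequently.1 hy
    have h3 : Tendsto (extChartAt 𝓘(ℝ, E) y) (𝓝 y) (𝓝 (pt y)) :=
      (continuousAt_extChartAt (I := 𝓘(ℝ, E)) y).tendsto
    have h6 : ∀ᶠ x in 𝓝 y, x ∈ (extChartAt 𝓘(ℝ, E) y).source :=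
      extChartAt_source_mem_nhds (I := 𝓘(ℝ, E)) y
    obtain ⟨x, hxA, hxs, hx⟩ := (h2.and_eventually (h6.and (h3.eventually h1))).exists
    refine hx ?_
    have hV : IsOpen ((extChartAt 𝓘(ℝ, E) y).target ∩
        (extChartAt 𝓘(ℝ, E) y).symm ⁻¹' (interior A)) :=
      (continuousOn_extChartAt_symm y).isOpen_inter_preimage (isOpen_extChartAt_target y)
        isOpen_interior
    have hxV : extChartAt 𝓘(ℝ, E) y x ∈ (extChartAt 𝓘(ℝ, E) y).target ∩
        (extChartAt 𝓘(ℝ, E) y).symm ⁻¹' (interior A) := by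
      refine ⟨(extChartAt 𝓘(ℝ, E) y).map_source hxs, ?_⟩
      rw [mem_preimage, (extChartAt 𝓘(ℝ, E) y).left_inv hxs]
      exact hxA
    have h4 : inChart (E := E) y k =ᶠ[𝓝 (extChartAt 𝓘(ℝ, E) y x)] id := by
      filter_upwards [hV.mem_nhds hxV] with e he
      have h5 : k • (extChartAt 𝓘(ℝ, E) y).symm e = (extChartAt 𝓘(ℝ, E) y).symm e :=
        (interior_subset he.2 : _ ∈ A) k hk
      simp only [inChart, id, h5]
      exact (extChartAt 𝓘(ℝ, E) y).right_inv he.1
    rw [h4.fderiv_eq, fderiv_id]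
  exact ⟨closure_subset_iff_isClosed.1 hcl, isOpen_interior⟩

/-- Thurston stability on a connected component. -/
theorem spread_comp [FiniteDimensional ℝ E] [T2Space M]
    (hC : ∀ g : Γ, ContMDiff 𝓘(ℝ, E) 𝓘(ℝ, E) 1 (fun x : M => g • x))
    (K : Subgroup Γ) (hfg : Group.FG K) (hK : ∀ φ : K →* Multiplicative ℝ, ∀ g, φ g = 1)
    {x : M} (hx : x ∈ interior {x : M | ∀ k ∈ K, k • x = x}) {y : M}
    (hy : y ∈ connectedComponent x) : ∀ k ∈ K, k • y = y := by
  have h := (isClopen_interior hC K hfg hK).connectedComponent_subset hx hy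
  exact interior_subset h

/-- Thurston stability on a connected manifold. -/
theorem spread [FiniteDimensional ℝ E] [T2Space M] [PreconnectedSpace M]
    (hC : ∀ g : Γ, ContMDiff 𝓘(ℝ, E) 𝓘(ℝ, E) 1 (fun x : M => g • x))
    (K : Subgroup Γ) (hfg : Group.FG K) (hK : ∀ φ : K →* Multiplicative ℝ, ∀ g, φ g = 1)
    (hne : (interior {x : M | ∀ k ∈ K, k • x = x}).Nonempty) :
    ∀ k ∈ K, ∀ x : M, k • x = x := by
  have huniv := (isClopen_interior hC K hfg hK).eq_univ hne
  intro k hk x
  have : x ∈ interior {x : M | ∀ k ∈ K, k • x = x} := by rw [huniv]; trivial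
  exact interior_subset this k hk

end Pool.Agent.Run7.h945.TH
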