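import Pool.Agent.Run7.h945.TH.IntMain

/-!
# Independent differentials are an open condition; functions on the target of a map of given rank
-/

set_option autoImplicit false

open Set Filter Topology Metric Function MeasureTheory
open scoped Manifold ContDiff

noncomputable section

namespace Pool.Agent.Run7.h945.TH

open Pool.Agent.Y522

theorem indep_of_comp {m n k : ℕ} (L : Fin k → E n →L[ℝ] ℝ) (A : E m →L[ℝ] E n)
    (h : LinearIndependent ℝ (fun i => (L i).comp A)) : LinearIndependent ℝ L := by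
  rw [Fintype.linearIndependent_iff] at h ⊢
  intro a ha
  refine h a ?_
  ext v
  have := congrArg (fun T : E n →L[ℝ] ℝ => T (A v)) ha
  simpa using this

/-- Differentials in the chart at `x`. -/
theorem chain1 {m : ℕ} {M : Type} [TopologicalSpace M] [ChartedSpace (E m) M]
    [IsManifold (𝓡 m) ∞ M] {f : M → ℝ} (hf : ContMDiff (𝓡 m) 𝓘(ℝ, ℝ) ∞ f) (x : M) {y : M}
    (hys : y ∈ (chartAt (E m) x).source) :
    ∃ A : E m →L[ℝ] E m, A = mfderiv (𝓡 m) (𝓡 m) (chartAt (E m) x).symm (chartAt (E m) x y) ∧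
      fderiv ℝ (fun z => f ((chartAt (E m) x).symm z)) (chartAt (E m) x y) =
        (dd m f y).comp A := by
  set φ := chartAt (E m) x with hφ
  have hsym : ∀ z ∈ φ.target, ContMDiffAt (𝓡 m) (𝓡 m) ∞ φ.symm z := by
    intro z hz
    exact (contMDiffOn_chart_symm z hz).contMDiffAt (φ.open_target.mem_nhds hz)
  refine ⟨mfderiv (𝓡 m) (𝓡 m) φ.symm (φ y), rfl, ?_⟩
  have h1 : φ.symm (φ y) = y := φ.left_inv hys
  have h2 : mfderiv (𝓡 m) 𝓘(ℝ, ℝ) (f ∘ φ.symm) (φ y) =
      (mfderiv (𝓡 m) 𝓘(ℝ, ℝ) f (φ.symm (φ y))).comp (mfderiv (𝓡 m) (𝓡 m) φ.symm (φ y)) :=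
    mfderiv_comp _ (hf.mdifferentiableAt (by simp))
      ((hsym _ (φ.map_source hys)).mdifferentiableAt (by simp))
  rw [← mfderiv_eq_fderiv]
  change mfderiv (𝓡 m) 𝓘(ℝ, ℝ) (f ∘ φ.symm) (φ y) = _
  rw [h2, h1]
  rfl

theorem chain2 {m : ℕ} {M : Type} [TopologicalSpace M] [ChartedSpace (E m) M]
    [IsManifold (𝓡 m) ∞ M] {f : M → ℝ} (hf : ContMDiff (𝓡 m) 𝓘(ℝ, ℝ) ∞ f) (x : M) :
    ∃ A : E m →L[ℝ] E m, A = mfderiv (𝓡 m) (𝓡 m) (chartAt (E m) x) x ∧
      dd m f x = (fderiv ℝ (fun z => f ((chartAt (E m) x).symm z)) (chartAt (E m) x x)).comp A := by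
  set φ := chartAt (E m) x with hφ
  have hsym : ∀ z ∈ φ.target, ContMDiffAt (𝓡 m) (𝓡 m) ∞ φ.symm z := by
    intro z hz
    exact (contMDiffOn_chart_symm z hz).contMDiffAt (φ.open_target.mem_nhds hz)
  have hg : ∀ z ∈ φ.target, ContDiffAt ℝ ∞ (fun z => f (φ.symm z)) z := by
    intro z hz
    exact contMDiffAt_iff_contDiffAt.1 (hf.contMDiffAt.comp z (hsym z hz))
  have hxs : x ∈ φ.source := mem_chart_source _ x
  refine ⟨mfderiv (𝓡 m) (𝓡 m) φ x, rfl, ?_⟩
  have h1 : f =ᶠ[𝓝 x] (fun z => f (φ.symm z)) ∘ φ := by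
    filter_upwards [φ.open_source.mem_nhds hxs] with y hy
    simp only [comp_apply, φ.left_inv hy]
  have h2 : MDifferentiableAt (𝓡 m) 𝓘(ℝ, ℝ) (fun z => f (φ.symm z)) (φ x) :=
    (contMDiffAt_iff_contDiffAt.2 (hg _ (φ.map_source hxs))).mdifferentiableAt (by simp)
  have h3 : MDifferentiableAt (𝓡 m) (𝓡 m) φ x :=
    ((contMDiffOn_chart (n := ∞) x hxs).contMDiffAt
      (φ.open_source.mem_nhds hxs)).mdifferentiableAt (by simp)
  have h4 := mfderiv_comp x h2 h3
  rw [mfderiv_eq_fderiv] at h4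
  unfold dd
  rw [h1.mfderiv_eq]
  exact h4

/-- Independence of differentials is an open condition. -/
theorem isOpen_independent {m k : ℕ} {M : Type} [TopologicalSpace M] [ChartedSpace (E m) M]
    [IsManifold (𝓡 m) ∞ M] {f : Fin k → M → ℝ} (hf : ∀ i, ContMDiff (𝓡 m) 𝓘(ℝ, ℝ) ∞ (f i)) :
    IsOpen {x : M | LinearIndependent ℝ (fun i => dd m (f i) x)} := by
  rw [isOpen_iff_mem_nhds]
  intro x hx
  set φ := chartAt (E m) x with hφ
  have hxs : x ∈ φ.source := mem_chart_source _ x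
  have hsym : ∀ z ∈ φ.target, ContMDiffAt (𝓡 m) (𝓡 m) ∞ φ.symm z := by
    intro z hz
    exact (contMDiffOn_chart_symm z hz).contMDiffAt (φ.open_target.mem_nhds hz)
  have hg : ∀ i, ∀ z ∈ φ.target, ContDiffAt ℝ ∞ (fun z => f i (φ.symm z)) z := by
    intro i z hz
    exact contMDiffAt_iff_contDiffAt.1 ((hf i).contMDiffAt.comp z (hsym z hz))
  have hne : LinearIndependent ℝ (fun i => fderiv ℝ (fun z => f i (φ.symm z)) (φ x)) := by
    have hA : (fun i => dd m (f i) x) = fun i =>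
        (fderiv ℝ (fun z => f i (φ.symm z)) (φ x)).comp
          (mfderiv (𝓡 m) (𝓡 m) φ x : E m →L[ℝ] E m) := by
      ext1 i
      obtain ⟨A, rfl, h⟩ := chain2 (hf i) x
      exact h
    have hx' : LinearIndependent ℝ (fun i => dd m (f i) x) := hx
    rw [hA] at hx'
    exact indep_of_comp _ _ hx'
  have hcont : ContinuousAt (fun z => fun i => fderiv ℝ (fun z => f i (φ.symm z)) z) (φ x) := by
    rw [continuousAt_pi]
    intro i
    exact ((hg i _ (φ.map_source hxs)).fderiv_right (m := 0) (by norm_num)).continuousAt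
  have h5 : ∀ᶠ z in 𝓝 (φ x), LinearIndependent ℝ
      (fun i => fderiv ℝ (fun z => f i (φ.symm z)) z) :=
    hcont.eventually (isOpen_setOfPred_linearIndependent.mem_nhds hne)
  have h6 : ∀ᶠ y in 𝓝 x, LinearIndependent ℝ
      (fun i => fderiv ℝ (fun z => f i (φ.symm z)) (φ y)) := (φ.continuousAt hxs).eventually h5
  filter_upwards [h6, φ.open_source.mem_nhds hxs] with y hy hys
  have hA : (fun i => fderiv ℝ (fun z => f i (φ.symm z)) (φ y)) = fun i =>
      (dd m (f i) y).comp (mfderiv (𝓡 m) (𝓡 m) φ.symm (φ y) : E m →L[ℝ] E m) := by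
    ext1 i
    obtain ⟨A, rfl, h⟩ := chain1 (hf i) x hys
    exact h
  rw [hA] at hy
  exact indep_of_comp _ _ hy

/-- Functionals which are independent on the range of a linear map. -/
theorem exists_dual {m b k : ℕ} (T : E m →L[ℝ] E b)
    (hk : k ≤ Module.finrank ℝ (LinearMap.range (T : E m →ₗ[ℝ] E b))) :
    ∃ l : Fin k → (E b →L[ℝ] ℝ), LinearIndependent ℝ (fun i => (l i).comp T) := by
  obtain ⟨e, he⟩ := exists_linearIndependent_of_le_finrank hk
  have he' : LinearIndependent ℝ (fun i => (e i : E b)) :=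
    he.map' (Submodule.subtype _) (Submodule.ker_subtype _)
  obtain ⟨g, hg⟩ := LinearMap.exists_extend (he'.repr : _ →ₗ[ℝ] (Fin k →₀ ℝ))
  have hgj : ∀ j, g (e j : E b) = Finsupp.single j 1 := by
    intro j
    have h1 : (e j : E b) ∈ Submodule.span ℝ (Set.range fun i => (e i : E b)) :=
      Submodule.subset_span ⟨j, rfl⟩
    have h2 := congrArg (fun S => S (⟨(e j : E b), h1⟩ :
      Submodule.span ℝ (Set.range fun i => (e i : E b)))) hg
    have h3 := he'.repr_eq_single j ⟨(e j : E b), h1⟩ rfl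
    rw [← h3]
    exact h2
  let l : Fin k → (E b →L[ℝ] ℝ) := fun i =>
    LinearMap.toContinuousLinearMap ((Finsupp.lapply i).comp g)
  refine ⟨l, ?_⟩
  rw [Fintype.linearIndependent_iff]
  intro a ha j
  obtain ⟨v, hv⟩ := (e j).2
  have h1 := congrArg (fun S : E m →L[ℝ] ℝ => S v) ha
  have h2 : ∀ i, (l i) (T v) = if i = j then 1 else 0 := by
    intro i
    have h3 : T v = (e j : E b) := hv
    rw [h3]
    change (g (e j : E b)) i = _
    rw [hgj, Finsupp.single_apply]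
    simp [eq_comm]
  simp [h2] at h1
  exact h1

end Pool.Agent.Run7.h945.TH
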