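import Pool.Agent.Run7.h945.TH.Integrals

/-!
# Actions with first integrals: the induction
-/

set_option autoImplicit false

open Set Filter Topology Metric Function MeasureTheory
open scoped Manifold ContDiff

noncomputable section

namespace Pool.Agent.Run7.h945.TH

open Pool.Agent.Y522

/-- The action on an invariant subset. -/
@[reducible] def subAction {Γ M : Type} [Group Γ] [MulAction Γ M] (S : Set M)
    (hS : ∀ g : Γ, ∀ x ∈ S, g • x ∈ S) : MulAction Γ S where
  smul g s := ⟨g • (s : M), hS g s s.2⟩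
  one_smul s := Subtype.ext (one_smul Γ (s : M))
  mul_smul g h s := Subtype.ext (mul_smul g h (s : M))

/-- Regular values are dense (from `Pool.Agent.N9.SH.sardM`). -/
theorem exists_regular {n : ℕ} {X : Type} [TopologicalSpace X]
    [SecondCountableTopology X] [ChartedSpace (E n) X] [IsManifold (𝓡 n) ∞ X] (φ : X → ℝ)
    (hφ : ContMDiff (𝓡 n) 𝓘(ℝ, ℝ) ∞ φ) {a b : ℝ} (hab : a < b) :
    ∃ c : ℝ, a < c ∧ c < b ∧ ∀ x, φ x = c → dd n φ x ≠ 0 := by
  have h1 := Pool.Agent.N9.SH.sardM n X φ hφ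
  have h2 : ¬ (Ioo a b ⊆ φ '' {x | mfderiv (𝓡 n) 𝓘(ℝ, ℝ) φ x = 0}) := by
    intro hsub
    have h3 := measure_mono_null hsub h1
    rw [Real.volume_Ioo, ENNReal.ofReal_eq_zero] at h3
    linarith
  obtain ⟨c, hc, hc'⟩ := not_subset.1 h2
  exact ⟨c, hc.1, hc.2, fun x hx h0 => hc' ⟨x, h0, hx⟩⟩

/-- The level set of a function at a regular value, as a closed manifold with an action. -/
theorem level_step {Γ : Type} [Group Γ] {m : ℕ} {M : Type} [TopologicalSpace M] [CompactSpace M]
    [T2Space M] [ChartedSpace (E (m + 1)) M] [IsManifold (𝓡 (m + 1)) ∞ M] [MulAction Γ M]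
    (hC : ∀ g : Γ, ContMDiff (𝓡 (m + 1)) (𝓡 (m + 1)) ∞ (fun x : M => g • x))
    (f : M → ℝ) (hf : ContMDiff (𝓡 (m + 1)) 𝓘(ℝ, ℝ) ∞ f) (S : Set M) (c : ℝ)
    (hS : S = f ⁻¹' {c}) (hreg : ∀ y ∈ S, dd (m + 1) f y ≠ 0)
    (hinvS : ∀ g : Γ, ∀ x ∈ S, g • x ∈ S) :
    ∃ (_ : ChartedSpace (E m) S), IsManifold (𝓡 m) ∞ S ∧
      ContMDiff (𝓡 m) (𝓡 (m + 1)) ∞ (Subtype.val : S → M) ∧
      (∀ s : S, Injective (mfderiv (𝓡 m) (𝓡 (m + 1)) (Subtype.val : S → M) s)) ∧
      (∀ g : Γ, ContMDiff (𝓡 m) (𝓡 m) ∞ (fun x : S => (⟨g • (x : M), hinvS g x x.2⟩ : S))) := by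
  have hflat : LocFlat m S := by
    intro x hx
    obtain ⟨e, he, -, he2⟩ := Pool.Agent.Y641.SH.stAdapt m M f x
      (Eventually.of_forall fun y => hf y) (hreg x hx)
    refine ⟨e, he, ?_⟩
    filter_upwards [he2] with y hy
    rw [hy, hS]
    have hx' : f x = c := by rw [hS] at hx; exact hx
    rw [hx', sub_eq_zero]
    rfl
  obtain ⟨cs, hmf, hv1, hv2, hv3⟩ := level m M S hflat
  refine ⟨cs, hmf, hv1, hv2, fun g s => ?_⟩
  set h : S → S := fun x : S => (⟨g • (x : M), hinvS g x x.2⟩ : S) with hh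
  have hcont : Continuous h :=
    Continuous.subtype_mk ((hC g).continuous.comp continuous_subtype_val) _
  obtain ⟨r, hr, hre⟩ := hv3 (h s)
  have h1 : h =ᶠ[𝓝 s] fun y => r (g • (y : M)) := by
    have := hcont.tendsto s
    filter_upwards [this.eventually hre] with y hy
    exact hy.symm
  have h2 : ContMDiffAt (𝓡 m) (𝓡 (m + 1)) ∞ (fun y : S => g • (y : M)) s :=
    ((hC g).contMDiffAt).comp s (hv1 s)
  have h3 : ContMDiffAt (𝓡 m) (𝓡 m) ∞ (fun y : S => r (g • (y : M))) s :=
    ContMDiffAt.comp (g := r) (f := fun y : S => g • (y : M)) s hr h2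
  exact h3.congr_of_eventuallyEq h1

/-- **Finite orbits at the points where the first integrals are independent.** -/
theorem orbit_finite {Γ : Type} [Group Γ] [Group.FG Γ] (hR : NoReal Γ) {r : ℕ}
    (hA : FiniteActions Γ r) (k : ℕ) :
    ∀ (m : ℕ) (M : Type) [TopologicalSpace M] [CompactSpace M] [T2Space M]
      [ChartedSpace (E m) M] [IsManifold (𝓡 m) ∞ M] [MulAction Γ M],
      (∀ g : Γ, ContMDiff (𝓡 m) (𝓡 m) ∞ (fun x : M => g • x)) →
      ∀ f : Fin k → M → ℝ, (∀ i, ContMDiff (𝓡 m) 𝓘(ℝ, ℝ) ∞ (f i)) →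
      (∀ i (g : Γ) x, f i (g • x) = f i x) → ∀ U : Set M, IsOpen U →
      (∀ x ∈ U, LinearIndependent ℝ (fun i => dd m (f i) x)) → m < r + k →
      ∀ x ∈ U, (MulAction.orbit Γ x).Finite := by
  induction k with
  | zero =>
    intro m M _ _ _ _ _ _ hC f _ _ U _ _ hm x _
    exact finite_orbit_of_finite_image (hA m (by omega) M hC) x
  | succ k ih =>
    intro m M _ _ _ _ _ _ hC f hf hinv U hU hind hm x0 hx0
    have hne : dd m (f 0) x0 ≠ 0 := (hind x0 hx0).ne_zero 0
    obtain ⟨m, rfl⟩ : ∃ m', m = m' + 1 := by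
      cases m with
      | zero =>
        exfalso
        apply hne
        ext v
        have : v = 0 := Subsingleton.elim _ _
        rw [this, map_zero, map_zero]
      | succ m' => exact ⟨m', rfl⟩
    have : LocallyConnectedSpace M := ChartedSpace.locallyConnectedSpace (E (m + 1)) M
    have : SecondCountableTopology M := ChartedSpace.secondCountable_of_sigmaCompact (E (m + 1)) M
    set V : Set M := U ∩ connectedComponent x0 with hV
    have hVo : IsOpen V := hU.inter isOpen_connectedComponent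
    obtain ⟨ε, hε, hεV⟩ := values (hf 0) hne (hVo.mem_nhds ⟨hx0, mem_connectedComponent⟩)
    obtain ⟨c, hc1, hc2, hc3⟩ := exists_regular (f 0) (hf 0) (a := f 0 x0) (b := f 0 x0 + ε)
      (by linarith)
    obtain ⟨x1, hx1V, hx1⟩ := hεV ⟨hc1, hc2⟩
    set Cr : Set M := {x : M | dd (m + 1) (f 0) x = 0} with hCr
    have hCrc : IsClosed Cr := by
      have := (isOpen_regular (hf 0)).isClosed_compl
      convert this using 1
      ext x
      simp [hCr]
    have hcl : IsClosed (f 0 '' Cr) := (hCrc.isCompact.image (hf 0).continuous).isClosed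
    set G : Set M := V ∩ (f 0) ⁻¹' (f 0 '' Cr)ᶜ with hG
    have hGo : IsOpen G := hVo.inter (hcl.isOpen_compl.preimage (hf 0).continuous)
    have hx1G : x1 ∈ G := by
      refine ⟨hx1V, ?_⟩
      rintro ⟨y, hy, hy1⟩
      exact hc3 y (hy1.trans hx1) hy
    have key : ∀ x ∈ G, (MulAction.orbit Γ x).Finite := by
      intro x hx
      set S : Set M := (f 0) ⁻¹' {f 0 x} with hS
      have hreg : ∀ y ∈ S, dd (m + 1) (f 0) y ≠ 0 := fun y hy h0 => hx.2 ⟨y, h0, hy⟩
      have hinvS : ∀ g : Γ, ∀ y ∈ S, g • y ∈ S := fun g y hy => (hinv 0 g y).trans hy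
      obtain ⟨cs, hmf, hv1, hv2, hact⟩ := level_step hC (f 0) (hf 0) S (f 0 x) hS hreg hinvS
      have hScl : IsClosed S := isClosed_singleton.preimage (hf 0).continuous
      have : CompactSpace S := isCompact_iff_compactSpace.1 hScl.isCompact
      letI : MulAction Γ S := subAction S hinvS
      have hUo : IsOpen ((Subtype.val : S → M) ⁻¹' U) := hU.preimage continuous_subtype_val
      have hind' : ∀ s ∈ (Subtype.val : S → M) ⁻¹' U,
          LinearIndependent ℝ (fun i : Fin k => dd m (fun y : S => f i.succ y) s) := by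
        intro s hs
        let A : E m →L[ℝ] E (m + 1) := mfderiv (𝓡 m) (𝓡 (m + 1)) (Subtype.val : S → M) s
        have hchain : ∀ i : Fin (k + 1), dd m (fun y : S => f i y) s =
            (dd (m + 1) (f i) (s : M)).comp A := by
          intro i
          exact mfderiv_comp s ((hf i).mdifferentiableAt (by simp))
            (hv1.mdifferentiableAt (by simp))
        have h0 : (dd (m + 1) (f 0) (s : M)).comp A = 0 := by
          rw [← hchain 0]
          have : (fun y : S => f 0 y) = fun _ => f 0 x := by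
            ext y
            exact y.2
          rw [this]
          exact mfderiv_const
        have h1 := restrict (fun i => dd (m + 1) (f i) (s : M)) (hind s hs) A (hv2 s) h0
        have h2 : (fun i : Fin k => dd m (fun y : S => f i.succ y) s) =
            fun i : Fin k => (dd (m + 1) (f i.succ) (s : M)).comp A := by
          ext1 i
          exact hchain i.succ
        rw [h2]
        exact h1
      have hfin := ih m S hact (fun i y => f i.succ y)
        (fun i => (hf i.succ).comp hv1) (fun i g y => hinv i.succ g y) _ hUo hind' (by omega)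
        ⟨x, rfl⟩ hx.1.1
      refine (hfin.image Subtype.val).subset ?_
      rintro _ ⟨g, rfl⟩
      exact ⟨g • (⟨x, rfl⟩ : S), MulAction.mem_orbit _ _, rfl⟩
    obtain ⟨K, hK, w, hw, hwi⟩ := exists_interior (fun g => (hC g).continuous) hGo ⟨x1, hx1G⟩ key
    have hC1 : ∀ g : Γ, ContMDiff 𝓘(ℝ, E (m + 1)) 𝓘(ℝ, E (m + 1)) 1 (fun x : M => g • x) :=
      fun g => (hC g).of_le (by exact_mod_cast le_top)
    have hcomp : x0 ∈ connectedComponent w := by
      rw [← connectedComponent_eq hw.1.2]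
      exact mem_connectedComponent
    exact finite_orbit_of_fixed K (spread_comp hC1 K inferInstance (hR K hK) hwi hcomp)

end Pool.Agent.Run7.h945.TH
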