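import Pool.Agent.Run7.h945.TH.Global

/-!
# Finite orbits

In a finitely generated group there are countably many subgroups of finite index such that every
point with a finite orbit, in any action, is fixed by one of them.  With the theorem of Baire and
Thurston stability, a `C¹` action of a group whose subgroups of finite index have no non trivial
homomorphism to `ℝ` has finite image if the set of the points with finite orbits is not meagre.
-/

set_option autoImplicit false

namespace Pool.Agent.Run7.h945.TH

open Filter Topology Set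
open scoped Manifold ContDiff Pointwise

section group

variable (Γ : Type*) [Group Γ]

/-- No subgroup of finite index has a non trivial homomorphism to the additive group `ℝ`. -/
def NoReal : Prop :=
  ∀ Δ : Subgroup Γ, Δ.FiniteIndex → ∀ φ : Δ →* Multiplicative ℝ, ∀ g, φ g = 1

/-- The elements which act trivially in every action on `n` points. -/
def kn (n : ℕ) : Subgroup Γ := ⨅ f : Γ →* Equiv.Perm (Fin n), f.ker

lemma finite_hom [Group.FG Γ] (H : Type*) [Group H] [Finite H] : Finite (Γ →* H) := by
  obtain ⟨S, hS⟩ : ∃ S : Finset Γ, Subgroup.closure (S : Set Γ) = ⊤ :=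
    Group.fg_iff'.1 inferInstance |>.imp (fun n h => h) |> fun ⟨n, S, _, h⟩ => ⟨S, h⟩
  refine Finite.of_injective (β := S → H) (fun f s => f s) fun f g h => ?_
  refine MonoidHom.eq_of_eqOn_dense hS fun s hs => ?_
  exact congrFun h ⟨s, hs⟩

instance kn_finiteIndex [Group.FG Γ] (n : ℕ) : (kn Γ n).FiniteIndex := by
  have := finite_hom Γ (Equiv.Perm (Fin n))
  exact Subgroup.finiteIndex_iInf fun f => inferInstance

variable {Γ}

lemma fixed_of_finite_orbit {M : Type*} [MulAction Γ M] {x : M}
    (hx : (MulAction.orbit Γ x).Finite) : ∃ n, ∀ k ∈ kn Γ n, k • x = x := by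
  have : Finite (MulAction.orbit Γ x) := hx
  obtain ⟨n, ⟨e⟩⟩ := Finite.exists_equiv_fin (MulAction.orbit Γ x)
  refine ⟨n, fun k hk => ?_⟩
  let f : Γ →* Equiv.Perm (Fin n) :=
    (e.permCongrHom.toMonoidHom).comp (MulAction.toPermHom Γ (MulAction.orbit Γ x))
  have h1 : k ∈ f.ker := (Subgroup.mem_iInf.1 hk) f
  have h2 : f k = 1 := h1
  have h3 : MulAction.toPermHom Γ (MulAction.orbit Γ x) k = 1 := by
    apply e.permCongrHom.injective
    rw [map_one]
    exact h2
  have h4 := congrArg (fun σ : Equiv.Perm (MulAction.orbit Γ x) =>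
    (σ ⟨x, MulAction.mem_orbit_self x⟩ : M)) h3
  exact h4

lemma finite_orbit_of_fixed {M : Type*} [MulAction Γ M] {x : M} (K : Subgroup Γ)
    [K.FiniteIndex] (hK : ∀ k ∈ K, k • x = x) : (MulAction.orbit Γ x).Finite := by
  have h1 : K ≤ MulAction.stabilizer Γ x := fun k hk => hK k hk
  have h2 : (MulAction.stabilizer Γ x).FiniteIndex := Subgroup.finiteIndex_of_le h1
  have h3 : Finite (Γ ⧸ MulAction.stabilizer Γ x) := Subgroup.finite_quotient_of_finiteIndex
  have h4 : Finite (MulAction.orbit Γ x) :=
    Finite.of_equiv _ (MulAction.orbitEquivQuotientStabilizer Γ x).symm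
  exact h4

lemma finite_image {M : Type*} [MulAction Γ M] (K : Subgroup Γ) [K.FiniteIndex]
    (hK : ∀ k ∈ K, ∀ x : M, k • x = x) : Finite (MulAction.toPermHom Γ M).range := by
  have h1 : K ≤ (MulAction.toPermHom Γ M).ker := by
    intro k hk
    rw [MonoidHom.mem_ker]
    ext x
    exact hK k hk x
  have h2 : (MulAction.toPermHom Γ M).ker.FiniteIndex := Subgroup.finiteIndex_of_le h1
  have h3 : Finite (Γ ⧸ (MulAction.toPermHom Γ M).ker) := Subgroup.finite_quotient_of_finiteIndex
  exact Finite.of_equiv _ (QuotientGroup.quotientKerEquivRange _).toEquiv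

lemma finite_orbit_of_finite_image {M : Type*} [MulAction Γ M]
    (h : Finite (MulAction.toPermHom Γ M).range) (x : M) : (MulAction.orbit Γ x).Finite := by
  have h1 : (MulAction.toPermHom Γ M).ker.FiniteIndex := inferInstance
  refine finite_orbit_of_fixed (MulAction.toPermHom Γ M).ker fun k hk => ?_
  have h2 : MulAction.toPermHom Γ M k = 1 := hk
  exact congrArg (fun σ : Equiv.Perm M => σ x) h2

end group

variable {E : Type*} [NormedAddCommGroup E] [NormedSpace ℝ E] [FiniteDimensional ℝ E]
  {M : Type*} [TopologicalSpace M] [T2Space M] [ChartedSpace E M]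
  {Γ : Type*} [Group Γ] [MulAction Γ M]

lemma isClosed_fixed (hc : ∀ g : Γ, Continuous (fun x : M => g • x)) (K : Subgroup Γ) :
    IsClosed {x : M | ∀ k ∈ K, k • x = x} := by
  have : {x : M | ∀ k ∈ K, k • x = x} = ⋂ k ∈ K, {x : M | k • x = x} := by
    ext x; simp
  rw [this]
  exact isClosed_biInter fun k _ => isClosed_eq (hc k) continuous_id

/-- If the set of the points with finite orbits is not meagre, the image is finite. -/
theorem finite_of_not_isMeagre [PreconnectedSpace M] [Group.FG Γ] (hR : NoReal Γ)
    (hC : ∀ g : Γ, ContMDiff 𝓘(ℝ, E) 𝓘(ℝ, E) 1 (fun x : M => g • x))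
    (h : ¬ IsMeagre {x : M | (MulAction.orbit Γ x).Finite}) :
    Finite (MulAction.toPermHom Γ M).range := by
  have h1 : ∃ n, (interior {x : M | ∀ k ∈ kn Γ n, k • x = x}).Nonempty := by
    by_contra hcon
    push Not at hcon
    apply h
    have h2 : IsMeagre (⋃ n, {x : M | ∀ k ∈ kn Γ n, k • x = x}) := by
      refine isMeagre_iUnion fun n => IsNowhereDense.isMeagre ?_
      rw [(isClosed_fixed (fun g => (hC g).continuous) (kn Γ n)).isNowhereDense_iff]
      exact hcon n
    refine h2.mono fun x hx => ?_
    obtain ⟨n, hn⟩ := fixed_of_finite_orbit hx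
    exact mem_iUnion.2 ⟨n, hn⟩
  obtain ⟨n, hn⟩ := h1
  exact finite_image (kn Γ n) (spread hC (kn Γ n) inferInstance (hR _ inferInstance) hn)

/-- Local version: if all points of a non empty open set have finite orbits, then a point of this
set is in the interior of the fixed points of a subgroup of finite index. -/
theorem exists_interior [BaireSpace M] [Group.FG Γ]
    (hc : ∀ g : Γ, Continuous (fun x : M => g • x)) {W : Set M} (hW : IsOpen W)
    (hne : W.Nonempty) (h : ∀ x ∈ W, (MulAction.orbit Γ x).Finite) :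
    ∃ K : Subgroup Γ, K.FiniteIndex ∧ ∃ w ∈ W, w ∈ interior {x : M | ∀ k ∈ K, k • x = x} := by
  let F : Option ℕ → Set M := fun o => o.elim Wᶜ fun n => {x : M | ∀ k ∈ kn Γ n, k • x = x}
  have hF : ∀ o, IsClosed (F o) := by
    intro o
    cases o with
    | none => exact hW.isClosed_compl
    | some n => exact isClosed_fixed hc _
  have hU : ⋃ o, F o = univ := by
    refine eq_univ_of_forall fun x => ?_
    by_cases hx : x ∈ W
    · obtain ⟨n, hn⟩ := fixed_of_finite_orbit (h x hx)
      exact mem_iUnion.2 ⟨some n, hn⟩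
    · exact mem_iUnion.2 ⟨none, hx⟩
  obtain ⟨w, hw, hwW⟩ := (dense_iUnion_interior_of_closed hF hU).inter_open_nonempty W hW hne
  obtain ⟨o, ho⟩ := mem_iUnion.1 hwW
  cases o with
  | none => exact absurd hw (interior_subset ho)
  | some n => exact ⟨kn Γ n, inferInstance, w, hw, ho⟩

end Pool.Agent.Run7.h945.TH
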