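import Pool.Agent.Run7.h945.TH.Level
import Pool.Agent.Run7.h945.TH.Orbits
import Pool.Agent.N9.SH1

/-!
# Actions with first integrals

If `Γ` acts smoothly on a closed manifold of dimension `m < r + k` and preserves `k` smooth functions,
the points at which the functions are independent have finite orbits, provided that all smooth
actions of `Γ` on closed manifolds of dimension smaller than `r` have finite image.
-/

set_option autoImplicit false

open Set Filter Topology Metric Function MeasureTheory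
open scoped Manifold ContDiff

noncomputable section

namespace Pool.Agent.Run7.h945.TH

open Pool.Agent.Y522

/-- All smooth actions of `Γ` on closed manifolds of dimension smaller than `r` have finite
image. -/
def FiniteActions (Γ : Type) [Group Γ] (r : ℕ) : Prop :=
  ∀ d : ℕ, d < r → ∀ (N : Type) [TopologicalSpace N] [CompactSpace N] [T2Space N]
    [ChartedSpace (EuclideanSpace ℝ (Fin d)) N] [IsManifold (𝓡 d) ∞ N] [MulAction Γ N],
    (∀ g : Γ, ContMDiff (𝓡 d) (𝓡 d) ∞ (fun x : N => g • x)) →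
    Finite (MulAction.toPermHom Γ N).range

/-- The differential of a function at a point. -/
def dd (m : ℕ) {M : Type} [TopologicalSpace M] [ChartedSpace (EuclideanSpace ℝ (Fin m)) M]
    (f : M → ℝ) (x : M) : EuclideanSpace ℝ (Fin m) →L[ℝ] ℝ := mfderiv (𝓡 m) 𝓘(ℝ, ℝ) f x

/-- The critical points are a closed set. -/
theorem isOpen_regular {m : ℕ} {M : Type} [TopologicalSpace M] [ChartedSpace (E m) M]
    [IsManifold (𝓡 m) ∞ M] {f : M → ℝ} (hf : ContMDiff (𝓡 m) 𝓘(ℝ, ℝ) ∞ f) :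
    IsOpen {x : M | dd m f x ≠ 0} := by
  rw [isOpen_iff_mem_nhds]
  intro x hx
  set φ := chartAt (E m) x with hφ
  have hsym : ∀ z ∈ φ.target, ContMDiffAt (𝓡 m) (𝓡 m) ∞ φ.symm z := by
    intro z hz
    exact (contMDiffOn_chart_symm z hz).contMDiffAt (φ.open_target.mem_nhds hz)
  have hg : ∀ z ∈ φ.target, ContDiffAt ℝ ∞ (fun z => f (φ.symm z)) z := by
    intro z hz
    exact contMDiffAt_iff_contDiffAt.1 (hf.contMDiffAt.comp z (hsym z hz))
  have hxs : x ∈ φ.source := mem_chart_source _ x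
  have hchain : ∀ y ∈ φ.source, fderiv ℝ (fun z => f (φ.symm z)) (φ y) =
      (dd m f y).comp (mfderiv (𝓡 m) (𝓡 m) φ.symm (φ y)) := by
    intro y hys
    have h1 : φ.symm (φ y) = y := φ.left_inv hys
    have h2 : mfderiv (𝓡 m) 𝓘(ℝ, ℝ) (f ∘ φ.symm) (φ y) =
        (mfderiv (𝓡 m) 𝓘(ℝ, ℝ) f (φ.symm (φ y))).comp (mfderiv (𝓡 m) (𝓡 m) φ.symm (φ y)) :=
      mfderiv_comp _ (hf.mdifferentiableAt (by simp))
        ((hsym _ (φ.map_source hys)).mdifferentiableAt (by simp))
    rw [← mfderiv_eq_fderiv]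
    change mfderiv (𝓡 m) 𝓘(ℝ, ℝ) (f ∘ φ.symm) (φ y) = _
    rw [h2, h1]
    rfl
  have hchain2 : dd m f x = (fderiv ℝ (fun z => f (φ.symm z)) (φ x)).comp
      (mfderiv (𝓡 m) (𝓡 m) φ x) := by
    have h1 : f =ᶠ[𝓝 x] (fun z => f (φ.symm z)) ∘ φ := by
      filter_upwards [φ.open_source.mem_nhds hxs] with y hy
      simp only [comp_apply, φ.left_inv hy]
    have h2 : MDifferentiableAt (𝓡 m) 𝓘(ℝ, ℝ) (fun z => f (φ.symm z)) (φ x) :=
      (contMDiffAt_iff_contDiffAt.2 (hg _ (φ.map_source hxs))).mdifferentiableAt (by simp)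
    have h3 : MDifferentiableAt (𝓡 m) (𝓡 m) φ x :=
      ((contMDiffOn_chart (n := ∞) x hxs).contMDiffAt
        (φ.open_source.mem_nhds hxs)).mdifferentiableAt (by simp)
    have h4 := mfderiv_comp x h2 h3
    rw [mfderiv_eq_fderiv] at h4
    unfold dd
    rw [h1.mfderiv_eq]
    exact h4
  have hne : fderiv ℝ (fun z => f (φ.symm z)) (φ x) ≠ 0 := by
    intro h0
    apply hx
    rw [hchain2, h0]
    rfl
  have hcont : ContinuousAt (fderiv ℝ (fun z => f (φ.symm z))) (φ x) :=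
    ((hg _ (φ.map_source hxs)).fderiv_right (m := 0) (by norm_num)).continuousAt
  have h5 : ∀ᶠ z in 𝓝 (φ x), fderiv ℝ (fun z => f (φ.symm z)) z ≠ 0 :=
    hcont.eventually (isOpen_ne.mem_nhds hne)
  have h6 : ∀ᶠ y in 𝓝 x, fderiv ℝ (fun z => f (φ.symm z)) (φ y) ≠ 0 :=
    (φ.continuousAt hxs).eventually h5
  filter_upwards [h6, φ.open_source.mem_nhds hxs] with y hy hys h0
  apply hy
  rw [hchain y hys, h0]
  rfl

/-- The values of a function near a regular point. -/
theorem values {m : ℕ} {M : Type} [TopologicalSpace M] [ChartedSpace (E (m + 1)) M]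
    [IsManifold (𝓡 (m + 1)) ∞ M] {f : M → ℝ} (hf : ContMDiff (𝓡 (m + 1)) 𝓘(ℝ, ℝ) ∞ f) {x : M}
    (hx : dd (m + 1) f x ≠ 0) {V : Set M} (hV : V ∈ 𝓝 x) : ∃ ε : ℝ, 0 < ε ∧ Ioo (f x) (f x + ε) ⊆ f '' V := by
  obtain ⟨e, he, he0, hev⟩ := Pool.Agent.Y641.SH.stAdapt m M f x
    (Eventually.of_forall fun y => hf y) hx
  have h1 : e '' (V ∩ {y | (e y) 0 = f y - f x}) ∈ 𝓝 (e x) :=
    he.image_mem_nhds (inter_mem hV hev)
  rw [he0] at h1
  have h2 : Tendsto (fun t : ℝ => t • (EuclideanSpace.single 0 1 : E (m + 1))) (𝓝 0) (𝓝 0) := by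
    have : ContinuousAt (fun t : ℝ => t • (EuclideanSpace.single 0 1 : E (m + 1))) 0 := by
      fun_prop
    have h3 := this.tendsto
    rwa [zero_smul] at h3
  obtain ⟨ε, hε, h4⟩ := Metric.eventually_nhds_iff.1 (h2.eventually h1)
  refine ⟨ε, hε, fun c hc => ?_⟩
  obtain ⟨y, ⟨hyV, hy1⟩, hy2⟩ := h4 (y := c - f x) (by
    rw [dist_zero_right, Real.norm_eq_abs, abs_of_pos (by linarith [hc.1])]
    linarith [hc.2])
  refine ⟨y, hyV, ?_⟩
  have h5 : (e y) 0 = c - f x := by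
    rw [hy2]
    simp
  have h6 : (e y) 0 = f y - f x := hy1
  linarith

/-- Linear algebra: restriction of independent functionals to the kernel of the first one. -/
theorem restrict {m k : ℕ} (L : Fin (k + 1) → E (m + 1) →L[ℝ] ℝ) (hL : LinearIndependent ℝ L)
    (A : E m →L[ℝ] E (m + 1)) (hA : Injective A) (h0 : (L 0).comp A = 0) :
    LinearIndependent ℝ (fun i : Fin k => (L i.succ).comp A) := by
  rw [linearIndependent_finSucc] at hL
  obtain ⟨hL1, hL2⟩ := hL
  rw [Fintype.linearIndependent_iff]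
  intro a ha
  set Λ : E (m + 1) →L[ℝ] ℝ := ∑ i : Fin k, a i • L i.succ with hΛ
  have hΛA : Λ.comp A = 0 := by
    rw [← ha, hΛ]
    ext v
    simp
  have hL0 : L 0 ≠ 0 := by
    intro h
    apply hL2
    rw [h]
    exact Submodule.zero_mem _
  -- the range of `A` is the kernel of `L 0`
  have hrange : LinearMap.range (A : E m →ₗ[ℝ] E (m + 1)) =
      LinearMap.ker (L 0 : E (m + 1) →ₗ[ℝ] ℝ) := by
    apply Submodule.eq_of_le_of_finrank_eq
    · rintro _ ⟨v, rfl⟩
      exact congrArg (fun T : E m →L[ℝ] ℝ => T v) h0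
    · have h1 := LinearMap.finrank_range_of_inj (f := (A : E m →ₗ[ℝ] E (m + 1))) hA
      have hne : (L 0 : E (m + 1) →ₗ[ℝ] ℝ) ≠ 0 := by
        intro h
        apply hL0
        ext v
        exact congrArg (fun f : E (m + 1) →ₗ[ℝ] ℝ => f v) h
      have h2 := Module.Dual.finrank_ker_add_one_of_ne_zero (K := ℝ) (V₁ := E (m + 1)) hne
      rw [finrank_euclideanSpace, Fintype.card_fin] at h1 h2
      have h3 : Module.finrank ℝ (LinearMap.range (A : E m →ₗ[ℝ] E (m + 1))) = m := h1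
      have h4 : Module.finrank ℝ (LinearMap.ker (L 0 : E (m + 1) →ₗ[ℝ] ℝ)) = m := by omega
      rw [h3, h4]
  obtain ⟨v1, hv1⟩ : ∃ v, L 0 v ≠ 0 := by
    by_contra h
    push Not at h
    exact hL0 (by ext v; exact h v)
  obtain ⟨v0, hv0⟩ : ∃ v, L 0 v = 1 := ⟨(L 0 v1)⁻¹ • v1, by
    rw [map_smul, smul_eq_mul, inv_mul_cancel₀ hv1]⟩
  have hker : ∀ v, L 0 v = 0 → Λ v = 0 := by
    intro v hv
    have h1 : v ∈ LinearMap.range (A : E m →ₗ[ℝ] E (m + 1)) := by
      rw [hrange]; exact hv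
    obtain ⟨w, rfl⟩ := h1
    exact congrArg (fun T : E m →L[ℝ] ℝ => T w) hΛA
  have hΛL : Λ = Λ v0 • L 0 := by
    ext v
    have h1 := hker (v - L 0 v • v0) (by
      rw [map_sub, map_smul, hv0, smul_eq_mul, mul_one, sub_self])
    rw [map_sub, map_smul, sub_eq_zero] at h1
    rw [h1, smul_apply, smul_eq_mul, smul_eq_mul, mul_comm]
  have hΛ0 : Λ v0 = 0 := by
    by_contra h
    apply hL2
    have h1 : L 0 = (Λ v0)⁻¹ • Λ := by
      rw [hΛL, smul_smul]
      simp only [smul_apply, hv0, smul_eq_mul, mul_one]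
      rw [inv_mul_cancel₀ h, one_smul]
    rw [h1, hΛ]
    refine Submodule.smul_mem _ _ (Submodule.sum_mem _ fun i _ => Submodule.smul_mem _ _ ?_)
    exact Submodule.subset_span ⟨i, rfl⟩
  rw [hΛ0, zero_smul] at hΛL
  exact (Fintype.linearIndependent_iff.1 hL1) a hΛL

end Pool.Agent.Run7.h945.TH
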