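import Pool.Agent.Y641.SH.Level

/-!
# Level sets as manifolds, with smooth retractions

The construction of `Pool.Agent.Y641.SH.stLevel`, with the additional property that the inclusion
has smooth local left inverses.  So continuous maps into the level set are smooth if they are smooth
as maps into the manifold.
-/

set_option autoImplicit false

open Set Filter Topology Metric Function
open scoped Manifold ContDiff

noncomputable section

namespace Pool.Agent.Run7.h945.TH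

open Pool.Agent.Y522 Pool.Agent.Y641.SH

theorem level (m : ℕ) (X : Type) [TopologicalSpace X] [ChartedSpace (E (m + 1)) X]
    [IsManifold (𝓡 (m + 1)) ∞ X] (S : Set X) (hS : LocFlat m S) :
    ∃ (_ : ChartedSpace (E m) S), IsManifold (𝓡 m) ∞ S ∧
      ContMDiff (𝓡 m) (𝓡 (m + 1)) ∞ (Subtype.val : S → X) ∧
      (∀ s : S, Injective (mfderiv (𝓡 m) (𝓡 (m + 1)) (Subtype.val : S → X) s)) ∧
      ∀ s : S, ∃ r : X → S, ContMDiffAt (𝓡 (m + 1)) (𝓡 m) ∞ r (s : X) ∧
        ∀ᶠ y : S in 𝓝 s, r (y : X) = y := by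
  choose Φ hΦ1 hΦ2 using fun s : S => flat_PD hS s
  let CS : ChartedSpace (E m) S :=
    { atlas := Set.range fun s : S => chS (Φ s) s (hΦ2 s)
      chartAt := fun s => chS (Φ s) s (hΦ2 s)
      mem_chart_source := fun s => hΦ1 s
      chart_mem_atlas := fun s => ⟨s, rfl⟩ }
  have hM : IsManifold (𝓡 m) ∞ S := by
    refine isManifold_of_contDiffOn (𝓡 m) ∞ S ?_
    rintro _ _ ⟨s, rfl⟩ ⟨t, rfl⟩
    have h := smooth_change (Φ s) (Φ t) s t (hΦ2 s) (hΦ2 t)
    simpa using h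
  have hchart : ∀ s : S, ContMDiffAt (𝓡 m) (𝓡 m) ∞ (chS (Φ s) s (hΦ2 s)) s := by
    intro s
    have h := contMDiffAt_of_mem_maximalAtlas (I := 𝓡 m) (n := ∞) (IsManifold.chart_mem_maximalAtlas (I := 𝓡 m) (n := ∞) s)
      (mem_chart_source (E m) s)
    exact h
  have hloc : ∀ s : S, (Subtype.val : S → X) =ᶠ[𝓝 s]
      fun y => (Φ s).invFun (cn 0 (chS (Φ s) s (hΦ2 s) y)) := by
    intro s
    filter_upwards [(chS (Φ s) s (hΦ2 s)).open_source.mem_nhds (hΦ1 s)] with y hy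
    have h1 := (chS (Φ s) s (hΦ2 s)).left_inv hy
    have h2 := chS_symm ((chS (Φ s) s (hΦ2 s)).map_source hy)
    rw [← h2, h1]
  have hval : ∀ s : S, ContMDiffAt (𝓡 m) (𝓡 (m + 1)) ∞ (Subtype.val : S → X) s := by
    intro s
    refine ContMDiffAt.congr_of_eventuallyEq ?_ (hloc s)
    have ht : cn 0 (chS (Φ s) s (hΦ2 s) s) ∈ (Φ s).target :=
      (chS (Φ s) s (hΦ2 s)).map_source (hΦ1 s)
    have h1 : ContMDiffAt (𝓡 (m + 1)) (𝓡 (m + 1)) ∞ (Φ s).invFun
        (cn 0 (chS (Φ s) s (hΦ2 s) s)) :=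
      ((Φ s).contMDiffOn_invFun _ ht).contMDiffAt ((Φ s).open_target.mem_nhds ht)
    have h2 : ContMDiffAt (𝓡 m) (𝓡 (m + 1)) ∞ (fun x : E m => (cn 0 x : E (m + 1)))
        (chS (Φ s) s (hΦ2 s) s) :=
      contMDiffAt_iff_contDiffAt.2 (cd_cn0 (m := m)).contDiffAt
    exact h1.comp s (h2.comp s (hchart s))
  -- a smooth left inverse near `s`
  have hleft : ∀ s : S, ContMDiffAt (𝓡 (m + 1)) (𝓡 m) ∞
      (fun x : X => (chS (Φ s) s (hΦ2 s)).symm (tl (Φ s x))) (s : X) := by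
    intro s
    have htl : ContDiff ℝ ∞ (fun z : E (m + 1) => (tl z : E m)) :=
      (tl : E (m + 1) →L[ℝ] E m).contDiff
    have hsym : ContMDiffAt (𝓡 m) (𝓡 m) ∞ (chS (Φ s) s (hΦ2 s)).symm (tl (Φ s (s : X))) :=
      contMDiffAt_symm_of_mem_maximalAtlas (I := 𝓡 m) (n := ∞)
        (IsManifold.chart_mem_maximalAtlas (I := 𝓡 m) (n := ∞) s)
        ((chS (Φ s) s (hΦ2 s)).map_source (hΦ1 s))
    have hΦs : ContMDiffAt (𝓡 (m + 1)) (𝓡 (m + 1)) ∞ (Φ s) (s : X) :=
      ((Φ s).contMDiffOn_toFun _ (hΦ1 s)).contMDiffAt ((Φ s).open_source.mem_nhds (hΦ1 s))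
    have h1 : ContMDiffAt (𝓡 (m + 1)) (𝓡 m) ∞ (fun z : E (m + 1) => (tl z : E m))
        (Φ s (s : X)) := contMDiffAt_iff_contDiffAt.2 htl.contDiffAt
    exact hsym.comp (s : X) (h1.comp (s : X) hΦs)
  have hid : ∀ s : S, (fun x : X => (chS (Φ s) s (hΦ2 s)).symm (tl (Φ s x))) ∘
      (Subtype.val : S → X) =ᶠ[𝓝 s] id := by
    intro s
    filter_upwards [(chS (Φ s) s (hΦ2 s)).open_source.mem_nhds (hΦ1 s)] with y hy
    exact (chS (Φ s) s (hΦ2 s)).left_inv hy
  refine ⟨CS, hM, hval, fun s => ?_, fun s => ⟨_, hleft s, hid s⟩⟩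
  have hc := mfderiv_comp s ((hleft s).mdifferentiableAt (by simp))
    ((hval s).mdifferentiableAt (by simp))
  rw [(hid s).mfderiv_eq, mfderiv_id] at hc
  intro v w hvw
  have hv := congrArg (fun L => L v) hc
  have hw := congrArg (fun L => L w) hc
  simp only [ContinuousLinearMap.coe_comp, Function.comp_apply, hvw] at hv hw
  exact hv.trans hw.symm

end Pool.Agent.Run7.h945.TH
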