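import Pool.Agent.Run7.h945.TH.Orbits

/-!
# One finite orbit

If all homomorphisms from subgroups of finite index to `GL_m(ℝ)` have finite image, a `C¹` action on
a connected manifold of dimension `m` with one finite orbit has finite image.  Finite orbits exist
if there is a non empty countable compact invariant set, or an invariant finite measure with an
atom.
-/

set_option autoImplicit false

namespace Pool.Agent.Run7.h945.TH

open Filter Topology Set MeasureTheory
open scoped Manifold ContDiff Pointwise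

/-- All homomorphisms from subgroups of finite index to `GL_m(ℝ)` have finite image. -/
def FiniteLinear (Γ : Type*) [Group Γ] (m : ℕ) : Prop :=
  ∀ Δ : Subgroup Γ, Δ.FiniteIndex → ∀ ρ : Δ →* GL (Fin m) ℝ, Finite ρ.range

section linear

variable {E : Type*} [NormedAddCommGroup E] [NormedSpace ℝ E] [FiniteDimensional ℝ E]
  {M : Type*} [TopologicalSpace M] [T2Space M] [ChartedSpace E M]
  {Γ : Type*} [Group Γ] [MulAction Γ M]

/-- A point with a finite orbit is in the interior of the fixed points of a subgroup of finite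
index. -/
theorem near_of_finite_orbit [Group.FG Γ] (hR : NoReal Γ)
    (hL : FiniteLinear Γ (Module.finrank ℝ E))
    (hC : ∀ g : Γ, ContMDiff 𝓘(ℝ, E) 𝓘(ℝ, E) 1 (fun x : M => g • x)) {x : M}
    (hx : (MulAction.orbit Γ x).Finite) :
    ∃ K : Subgroup Γ, K.FiniteIndex ∧ x ∈ interior {x : M | ∀ k ∈ K, k • x = x} := by
  set Δ : Subgroup Γ := MulAction.stabilizer Γ x with hΔ
  have h3 : Finite (MulAction.orbit Γ x) := hx
  have h4 : Finite (Γ ⧸ Δ) := Finite.of_equiv _ (MulAction.orbitEquivQuotientStabilizer Γ x)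
  have hΔf : Δ.FiniteIndex := Subgroup.finiteIndex_of_finite_quotient
  have hmem : ∀ g : Δ, (g : Γ) • x = x := fun g => g.2
  let D : Δ →* (E →L[ℝ] E) :=
    { toFun := fun g => dg x (g : Γ)
      map_one' := dg_one x
      map_mul' := fun g h => dg_mul hC (hmem g) (hmem h) }
  let b := Module.finBasis ℝ E
  let T : (E →L[ℝ] E) →* Matrix (Fin (Module.finrank ℝ E)) (Fin (Module.finrank ℝ E)) ℝ :=
    ((LinearMap.toMatrixAlgEquiv b : (E →ₗ[ℝ] E) ≃ₐ[ℝ] _) : (E →ₗ[ℝ] E) →* _).comp
      ((ContinuousLinearMap.toLinearMapRingHom : (E →L[ℝ] E) →+* (E →ₗ[ℝ] E)) :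
        (E →L[ℝ] E) →* (E →ₗ[ℝ] E))
  have hT : Function.Injective T := by
    intro a c hac
    have h5 : (a : E →ₗ[ℝ] E) = (c : E →ₗ[ℝ] E) :=
      (LinearMap.toMatrixAlgEquiv b).injective hac
    exact ContinuousLinearMap.coe_injective h5
  let ρ : Δ →* GL (Fin (Module.finrank ℝ E)) ℝ := (T.comp D).toHomUnits
  have hfin : Finite ρ.range := hL Δ hΔf ρ
  have hkf : ρ.ker.FiniteIndex := inferInstance
  let K : Subgroup Γ := ρ.ker.map Δ.subtype
  have hKf : K.FiniteIndex := by
    refine ⟨?_⟩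
    rw [Subgroup.index_map]
    simp only [Subgroup.ker_subtype, sup_bot_eq, Subgroup.range_subtype]
    exact mul_ne_zero hkf.index_ne_zero hΔf.index_ne_zero
  refine ⟨K, hKf, ?_⟩
  rw [mem_interior_iff_mem_nhds]
  refine near_trivial (E := E) hC K inferInstance (hR K hKf) x ?_ ?_
  · rintro _ ⟨g, -, rfl⟩
    exact hmem g
  · rintro _ ⟨g, hg, rfl⟩
    have h6 : ρ g = 1 := hg
    have h7 : T (D g) = 1 := congrArg Units.val h6
    have h8 : D g = 1 := hT (by rw [h7, map_one])
    exact h8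

/-- One finite orbit. -/
theorem finite_of_finite_orbit [PreconnectedSpace M] [Group.FG Γ] (hR : NoReal Γ)
    (hL : FiniteLinear Γ (Module.finrank ℝ E))
    (hC : ∀ g : Γ, ContMDiff 𝓘(ℝ, E) 𝓘(ℝ, E) 1 (fun x : M => g • x)) {x : M}
    (hx : (MulAction.orbit Γ x).Finite) : Finite (MulAction.toPermHom Γ M).range := by
  obtain ⟨K, hK, hx⟩ := near_of_finite_orbit hR hL hC hx
  exact finite_image K (spread hC K inferInstance (hR K hK) ⟨x, hx⟩)

end linear

section sets

variable {M : Type*} [TopologicalSpace M] [T2Space M] {Γ : Type*} [Group Γ] [MulAction Γ M]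

/-- A non empty countable compact invariant set contains a finite orbit. -/
theorem exists_finite_orbit (hc : ∀ g : Γ, Continuous (fun x : M => g • x)) {C : Set M}
    (hC : IsCompact C) (hne : C.Nonempty) (hcount : C.Countable)
    (hinv : ∀ g : Γ, ∀ x ∈ C, g • x ∈ C) : ∃ x ∈ C, (MulAction.orbit Γ x).Finite := by
  let S : Set (Set M) := {L | L ⊆ C ∧ IsClosed L ∧ L.Nonempty ∧ ∀ g : Γ, ∀ x ∈ L, g • x ∈ L}
  have hz : ∃ m, Minimal (· ∈ S) m := by
    refine zorn_superset S fun c hcS hchain => ?_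
    rcases c.eq_empty_or_nonempty with rfl | hcne
    · exact ⟨C, ⟨Subset.rfl, hC.isClosed, hne, hinv⟩, by simp⟩
    · refine ⟨⋂₀ c, ⟨?_, ?_, ?_, ?_⟩, fun s hs => sInter_subset_of_mem hs⟩
      · obtain ⟨L, hL⟩ := hcne
        exact (sInter_subset_of_mem hL).trans (hcS hL).1
      · exact isClosed_sInter fun L hL => (hcS hL).2.1
      · refine IsCompact.nonempty_sInter_of_directed_nonempty_isCompact_isClosed (S := c) (hS := hcne.to_subtype)
          (fun a ha b hb => (hchain.total ha hb).elim (fun h => ⟨a, ha, Subset.rfl, h⟩)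
            fun h => ⟨b, hb, h, Subset.rfl⟩) (fun L hL => (hcS hL).2.2.1)
          (fun L hL => hC.of_isClosed_subset (hcS hL).2.1 (hcS hL).1) fun L hL => (hcS hL).2.1
      · intro g x hx L hL
        exact (hcS hL).2.2.2 g x (hx L hL)
  obtain ⟨L, hLS, hmin⟩ := hz
  obtain ⟨hLC, hLc, hLne, hLi⟩ := hLS
  have hLcomp : IsCompact L := hC.of_isClosed_subset hLc hLC
  -- an isolated point
  obtain ⟨x, hxL, U, hU, hUx⟩ : ∃ x ∈ L, ∃ U : Set M, IsOpen U ∧ U ∩ L = {x} := by
    have : CompactSpace L := isCompact_iff_compactSpace.1 hLcomp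
    have : Nonempty L := hLne.to_subtype
    have : Countable L := (hcount.mono hLC).to_subtype
    obtain ⟨x, hx⟩ := nonempty_interior_of_iUnion_of_closed (f := fun x : L => ({x} : Set L))
      (fun x => isClosed_singleton) (by ext y; simp)
    obtain ⟨y, hy⟩ := hx
    have hyx : y ∈ ({x} : Set L) := interior_subset hy
    rw [mem_singleton_iff] at hyx
    subst hyx
    obtain ⟨V, hV, hVe⟩ := isOpen_induced_iff.1 (isOpen_interior (s := ({y} : Set L)))
    refine ⟨y, y.2, V, hV, ?_⟩
    ext z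
    constructor
    · rintro ⟨hz, hzL⟩
      have h1 : (⟨z, hzL⟩ : L) ∈ Subtype.val ⁻¹' V := hz
      rw [hVe] at h1
      have h2 : (⟨z, hzL⟩ : L) ∈ ({y} : Set L) := interior_subset h1
      exact congrArg Subtype.val (mem_singleton_iff.1 h2)
    · rintro rfl
      have h1 : y ∈ Subtype.val ⁻¹' V := by rw [hVe]; exact hy
      exact ⟨h1, y.2⟩
  have hxU : x ∈ U := by
    have : x ∈ U ∩ L := by rw [hUx]; rfl
    exact this.1
  have hOL : MulAction.orbit Γ x ⊆ L := by
    rintro _ ⟨g, rfl⟩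
    exact hLi g x hxL
  -- the translates of `U`
  have hgU : ∀ g : Γ, IsOpen ((fun y : M => g⁻¹ • y) ⁻¹' U) := fun g => hU.preimage (hc g⁻¹)
  have hkey : ∀ g : Γ, ∀ z ∈ L, g⁻¹ • z ∈ U → z = g • x := by
    intro g z hz hzU
    have : g⁻¹ • z ∈ U ∩ L := ⟨hzU, hLi _ z hz⟩
    rw [hUx] at this
    rw [← (this : g⁻¹ • z = x), smul_inv_smul]
  have hL' : L ⊆ MulAction.orbit Γ x := by
    by_contra hcon
    obtain ⟨z, hzL, hzO⟩ := not_subset.1 hcon
    have hmem : L \ MulAction.orbit Γ x ∈ S := by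
      refine ⟨sdiff_subset.trans hLC, ?_, ⟨z, hzL, hzO⟩, ?_⟩
      · have h1 : L \ MulAction.orbit Γ x = L ∩ (⋃ g : Γ, (fun y : M => g⁻¹ • y) ⁻¹' U)ᶜ := by
          ext y
          constructor
          · rintro ⟨h1, h2⟩
            refine ⟨h1, fun h3 => h2 ?_⟩
            obtain ⟨g, hg⟩ := mem_iUnion.1 h3
            exact ⟨g, (hkey g y h1 hg).symm⟩
          · rintro ⟨h1, h2⟩
            refine ⟨h1, ?_⟩
            rintro ⟨g, rfl⟩
            refine h2 (mem_iUnion.2 ⟨g, ?_⟩)
            simpa using hxU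
        rw [h1]
        exact hLc.inter (isOpen_iUnion hgU).isClosed_compl
      · rintro g y ⟨h1, h2⟩
        refine ⟨hLi g y h1, fun h3 => h2 ?_⟩
        rw [MulAction.mem_orbit_iff] at h3 ⊢
        obtain ⟨k, hk⟩ := h3
        exact ⟨g⁻¹ * k, by rw [mul_smul, hk, inv_smul_smul]⟩
    have h2 := hmin hmem sdiff_subset hxL
    exact h2.2 (MulAction.mem_orbit_self x)
  refine ⟨x, hLC hxL, ?_⟩
  obtain ⟨t, ht⟩ := hLcomp.elim_finite_subcover (fun g : Γ => (fun y : M => g⁻¹ • y) ⁻¹' U) hgU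
    (by
      intro z hz
      obtain ⟨g, rfl⟩ := hL' hz
      refine mem_iUnion.2 ⟨g, ?_⟩
      simpa using hxU)
  refine ((t.finite_toSet).image fun g => g • x).subset fun z hz => ?_
  obtain ⟨g, hg, hzg⟩ := mem_iUnion₂.1 (ht (hOL hz))
  exact ⟨g, hg, (hkey g z (hOL hz) hzg).symm⟩

/-- Atoms of an invariant finite measure have finite orbits. -/
theorem finite_orbit_of_atom [MeasurableSpace M] [MeasurableSingletonClass M] (μ : Measure M)
    [IsFiniteMeasure μ] (hinv : ∀ g : Γ, MeasurePreserving (fun x : M => g • x) μ μ) {x : M}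
    (hx : μ {x} ≠ 0) : (MulAction.orbit Γ x).Finite := by
  have h1 : ∀ y ∈ MulAction.orbit Γ x, μ {y} = μ {x} := by
    rintro _ ⟨g, rfl⟩
    have := (hinv g).measure_preimage (s := {g • x}) (measurableSet_singleton _).nullMeasurableSet
    rw [← this]
    congr 1
    ext z
    simp
  have h2 := Measure.finite_const_le_meas_of_disjoint_iUnion μ (ε := μ {x})
    (pos_iff_ne_zero.2 hx) (As := fun y : M => ({y} : Set M)) (fun y => measurableSet_singleton y)
    (by
      intro a b hab
      exact disjoint_singleton.2 hab) (measure_ne_top μ _)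
  refine h2.subset fun y hy => ?_
  exact (h1 y hy).ge

end sets

end Pool.Agent.Run7.h945.TH
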