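import Mathlib

/-!
# Thurston's stability theorem, local form

A finitely generated group of germs of `C¹` diffeomorphisms of a finite dimensional space which fix
a point, with derivative the identity at this point, is trivial if the group has no non trivial
homomorphism to `ℝ`.
-/

set_option autoImplicit false

namespace Pool.Agent.Run7.h945.TH

open Filter Topology

variable {E : Type*} [NormedAddCommGroup E] [NormedSpace ℝ E]
variable {K : Type*} [Group K]

/-- The maps `F g` define an action of `K` by germs at `p`, all with derivative the identity. -/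
structure Germs (F : K → E → E) (p : E) : Prop where
  fix : ∀ g, F g p = p
  one : ∀ᶠ x in 𝓝 p, F 1 x = x
  mul : ∀ g h, ∀ᶠ x in 𝓝 p, F (g * h) x = F g (F h x)
  diff : ∀ g, HasStrictFDerivAt (F g) (ContinuousLinearMap.id ℝ E) p

variable {F : K → E → E} {p : E}

lemma Germs.est (hG : Germs F p) (g h : K) {ε : ℝ} (hε : 0 < ε) :
    ∀ᶠ x in 𝓝 p, ‖(F (g * h) x - x) - (F g x - x) - (F h x - x)‖ ≤ ε * ‖F h x - x‖ := by
  have h1 := (hG.diff g).isLittleO.def hε
  have h2 : Tendsto (fun x => (F h x, x)) (𝓝 p) (𝓝 (p, p)) := by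
    have := (hG.diff h).continuousAt.tendsto
    rw [hG.fix h] at this
    exact this.prodMk_nhds tendsto_id
  filter_upwards [h2.eventually h1, hG.mul g h] with x hx hm
  simp only [ContinuousLinearMap.id_apply] at hx
  rw [hm]
  have : (F g (F h x) - x) - (F g x - x) - (F h x - x)
      = F g (F h x) - F g x - (F h x - x) := by abel
  rw [this]
  exact hx

lemma Germs.bound (hG : Germs F p) (S : Finset K)
    (hS : Subgroup.closure (S : Set K) = ⊤) (g : K) :
    ∃ C : ℝ, 0 ≤ C ∧ ∀ᶠ x in 𝓝 p, ‖F g x - x‖ ≤ C * ∑ s ∈ S, ‖F s x - x‖ := by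
  have hg : g ∈ Subgroup.closure (S : Set K) := by rw [hS]; trivial
  induction hg using Subgroup.closure_induction with
  | mem s hs =>
    refine ⟨1, zero_le_one, Eventually.of_forall fun x => ?_⟩
    rw [one_mul]
    exact Finset.single_le_sum (f := fun s => ‖F s x - x‖) (fun _ _ => norm_nonneg _) hs
  | one =>
    refine ⟨0, le_rfl, ?_⟩
    filter_upwards [hG.one] with x hx
    rw [hx]; simp
  | mul a b _ _ ha hb =>
    obtain ⟨A, hA0, hA⟩ := ha
    obtain ⟨B, hB0, hB⟩ := hb
    refine ⟨A + 2 * B, by positivity, ?_⟩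
    filter_upwards [hA, hB, hG.est a b one_pos] with x h1 h2 h3
    have : F (a * b) x - x = ((F (a * b) x - x) - (F a x - x) - (F b x - x)) + (F a x - x)
      + (F b x - x) := by abel
    rw [this]
    refine (norm_add₃_le).trans ?_
    nlinarith [norm_nonneg (F b x - x)]
  | inv a _ ha =>
    obtain ⟨A, hA0, hA⟩ := ha
    refine ⟨2 * A, by positivity, ?_⟩
    filter_upwards [hA, hG.one, hG.est a⁻¹ a one_pos] with x h1 h2 h3
    rw [inv_mul_cancel, h2, sub_self, zero_sub] at h3
    have : F a⁻¹ x - x = -(-(F a⁻¹ x - x) - (F a x - x)) - (F a x - x) := by abel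
    rw [this]
    refine (norm_sub_le _ _).trans ?_
    rw [norm_neg]
    linarith

/-- **Thurston stability**, local form. -/
theorem Germs.trivial [FiniteDimensional ℝ E] (hG : Germs F p) (hfg : Group.FG K)
    (hK : ∀ φ : K →* Multiplicative ℝ, ∀ g, φ g = 1) (g : K) : ∀ᶠ x in 𝓝 p, F g x = x := by
  obtain ⟨S, hS⟩ := Group.fg_iff'.1 hfg |>.imp (fun n h => h) |> fun ⟨n, S, _, h⟩ => (⟨S, h⟩ :
    ∃ S : Finset K, Subgroup.closure (S : Set K) = ⊤)
  set m : E → ℝ := fun x => ∑ s ∈ S, ‖F s x - x‖ with hm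
  have hm0 : ∀ x, 0 ≤ m x := fun x => Finset.sum_nonneg fun _ _ => norm_nonneg _
  choose C hC0 hC using hG.bound S hS
  by_cases hev : ∀ᶠ x in 𝓝 p, m x = 0
  · filter_upwards [hev, hC g] with x h1 h2
    change ‖F g x - x‖ ≤ C g * m x at h2
    rw [h1, mul_zero] at h2
    exact sub_eq_zero.1 (norm_le_zero_iff.1 h2)
  exfalso
  have hfreq : ∃ᶠ x in 𝓝 p, m x ≠ 0 := not_eventually.1 hev
  have : NeBot (𝓝 p ⊓ 𝓟 {x | m x ≠ 0}) := by
    rw [← frequently_mem_iff_neBot]
    exact hfreq
  let U : Ultrafilter E := Ultrafilter.of (𝓝 p ⊓ 𝓟 {x | m x ≠ 0})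
  have hU : (U : Filter E) ≤ 𝓝 p ⊓ 𝓟 {x | m x ≠ 0} := Ultrafilter.of_le _
  have hU1 : (U : Filter E) ≤ 𝓝 p := hU.trans inf_le_left
  have hU2 : ∀ᶠ x in (U : Filter E), m x ≠ 0 := by
    have : ∀ᶠ x in 𝓟 {x | m x ≠ 0}, m x ≠ 0 := by
      rw [eventually_principal]
      exact fun x hx => hx
    exact this.filter_mono (hU.trans inf_le_right)
  let v : K → E → E := fun g x => (m x)⁻¹ • (F g x - x)
  have hvb : ∀ g, ∀ᶠ x in (U : Filter E), ‖v g x‖ ≤ C g := by
    intro g
    filter_upwards [hU2, (hC g).filter_mono hU1] with x h1 h2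
    have hp : 0 < m x := lt_of_le_of_ne (hm0 x) (Ne.symm h1)
    change ‖(m x)⁻¹ • (F g x - x)‖ ≤ C g
    rw [norm_smul, Real.norm_of_nonneg (inv_nonneg.2 hp.le), inv_mul_le_iff₀ hp, mul_comm]
    exact h2
  have hlim : ∀ g, ∃ y, Tendsto (v g) (U : Filter E) (𝓝 y) := by
    intro g
    obtain ⟨y, -, hy⟩ := (isCompact_closedBall (0 : E) (C g)).ultrafilter_le_nhds (U.map (v g)) (by
      rw [le_principal_iff]
      refine mem_map.2 ?_
      filter_upwards [hvb g] with x hx
      simpa using hx)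
    exact ⟨y, hy⟩
  choose Φ hΦ using hlim
  have hadd : ∀ g h, Φ (g * h) = Φ g + Φ h := by
    intro g h
    have h1 : Tendsto (fun x => v (g * h) x - v g x - v h x) (U : Filter E)
        (𝓝 (Φ (g * h) - Φ g - Φ h)) := ((hΦ (g * h)).sub (hΦ g)).sub (hΦ h)
    have h2 : ∀ ε : ℝ, 0 < ε → ‖Φ (g * h) - Φ g - Φ h‖ ≤ ε * C h := by
      intro ε hε
      refine le_of_tendsto h1.norm ?_
      filter_upwards [hU2, (hG.est g h hε).filter_mono hU1, hvb h] with x h3 h4 h5
      have hp : 0 < m x := lt_of_le_of_ne (hm0 x) (Ne.symm h3)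
      have : v (g * h) x - v g x - v h x
          = (m x)⁻¹ • ((F (g * h) x - x) - (F g x - x) - (F h x - x)) := by
        simp only [v, smul_sub]
      rw [this, norm_smul, Real.norm_of_nonneg (inv_nonneg.2 hp.le)]
      calc (m x)⁻¹ * ‖(F (g * h) x - x) - (F g x - x) - (F h x - x)‖
          ≤ (m x)⁻¹ * (ε * ‖F h x - x‖) := by gcongr
        _ = ε * ‖v h x‖ := by
          simp only [v]
          rw [norm_smul, Real.norm_of_nonneg (inv_nonneg.2 hp.le)]
          ring
        _ ≤ ε * C h := by gcongr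
    have h3 : ‖Φ (g * h) - Φ g - Φ h‖ ≤ 0 := by
      refine le_of_forall_pos_le_add fun δ hδ => ?_
      rw [zero_add]
      refine (h2 (δ / (C h + 1)) (by have := hC0 h; positivity)).trans ?_
      have := hC0 h
      rw [div_mul_eq_mul_div, div_le_iff₀ (by positivity)]
      nlinarith
    have h4 := norm_le_zero_iff.1 h3
    rw [sub_sub, sub_eq_zero] at h4
    exact h4
  have hzero : ∀ g, Φ g = 0 := by
    intro g
    refine SeparatingDual.eq_zero_of_forall_dual_eq_zero (R := ℝ) fun f => ?_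
    let ψ : K →* Multiplicative ℝ := MonoidHom.mk' (fun g => Multiplicative.ofAdd (f (Φ g))) (by
      intro a b
      rw [hadd, map_add, ofAdd_add])
    have := hK ψ g
    exact Multiplicative.ofAdd.injective this
  have hsum : Tendsto (fun x => ∑ s ∈ S, ‖v s x‖) (U : Filter E) (𝓝 (∑ s ∈ S, ‖Φ s‖)) :=
    tendsto_finsetSum _ fun s _ => (hΦ s).norm
  have hone : Tendsto (fun x => ∑ s ∈ S, ‖v s x‖) (U : Filter E) (𝓝 1) := by
    refine Tendsto.congr' ?_ tendsto_const_nhds
    filter_upwards [hU2] with x hx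
    have hp : 0 < m x := lt_of_le_of_ne (hm0 x) (Ne.symm hx)
    have : ∑ s ∈ S, ‖v s x‖ = (m x)⁻¹ * m x := by
      simp only [v, norm_smul, Real.norm_of_nonneg (inv_nonneg.2 hp.le)]
      rw [← Finset.mul_sum]
    rw [this, inv_mul_cancel₀ hx]
  have h5 := tendsto_nhds_unique hsum hone
  simp only [hzero, norm_zero, Finset.sum_const_zero] at h5
  exact zero_ne_one h5

end Pool.Agent.Run7.h945.TH
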